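import Pool.Agent.P.MP_eae75b_ag.Count

/-! The integral closure filtration of a staircase closed under full moves is stable. -/

namespace Pool.Agent.P.MP_eae75b_ag

open Finset

variable {D : ℕ}

/-- Move the whole exponent of coordinate `a` to coordinate `b`. -/
def fm (a b : Fin D) : (Fin D → ℕ) →+ (Fin D → ℕ) where
  toFun ν := fun s => if s = a then 0 else if s = b then ν a + ν b else ν s
  map_zero' := by funext s; simp
  map_add' ν μ := by
    funext s
    simp only [Pi.add_apply]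
    split_ifs <;> omega

theorem fm_apply (a b : Fin D) (ν : Fin D → ℕ) (s : Fin D) :
    fm a b ν s = if s = a then 0 else if s = b then ν a + ν b else ν s := rfl

theorem fm_mono (a b : Fin D) {ν μ : Fin D → ℕ} (h : ν ≤ μ) : fm a b ν ≤ fm a b μ := by
  obtain ⟨ρ, rfl⟩ := exists_add_of_le h
  rw [map_add]
  exact le_self_add

theorem sum_fm {a b : Fin D} (hab : a ≠ b) (ν : Fin D → ℕ) : ∑ s, fm a b ν s = ∑ s, ν s := by
  have : ∀ s, fm a b ν s + (if s = a then ν a else 0) = ν s + (if s = b then ν a else 0) := by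
    intro s
    rw [fm_apply]
    by_cases h1 : s = a
    · subst h1; simp [hab]
    · by_cases h2 : s = b
      · subst h2; simp [h1]; omega
      · simp [h1, h2]
  have h := sum_congr (s₁ := univ) rfl fun s _ => this s
  rw [sum_add_distrib, sum_add_distrib, sum_ite_eq', sum_ite_eq'] at h
  simpa using h

theorem exists_le_sum_eq (N : ℕ) (z : Fin D → ℕ) (h : N ≤ ∑ s, z s) :
    ∃ g ≤ z, ∑ s, g s = N := by
  obtain ⟨m, hm⟩ := Nat.exists_eq_add_of_le h
  clear h
  induction m generalizing z with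
  | zero => exact ⟨z, le_rfl, hm⟩
  | succ m ih =>
    obtain ⟨a, -, ha⟩ : ∃ a ∈ (univ : Finset (Fin D)), z a ≠ 0 :=
      exists_ne_zero_of_sum_ne_zero (by omega)
    have h4 : (Pi.single a 1 : Fin D → ℕ) ≤ z := by
      intro s
      by_cases hs : s = a
      · subst hs; simp; omega
      · simp [Pi.single_eq_of_ne hs]
    obtain ⟨ρ, rfl⟩ := exists_add_of_le h4
    obtain ⟨g, hg, hg'⟩ := ih ρ (by
      simp only [Pi.add_apply, sum_add_distrib, sum_pi_single', mem_univ, if_true] at hm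
      omega)
    exact ⟨g, hg.trans le_add_self, hg'⟩

def Cl (J : (Fin D → ℕ) → Prop) (N n : ℕ) (ν : Fin D → ℕ) : Prop :=
  ∃ M, 0 < M ∧ ∃ s : Multiset (Fin D → ℕ), (∀ g ∈ s, J g ∧ ∑ t, g t ≤ N) ∧
    Multiset.card s = M * n ∧ s.sum ≤ M • ν

theorem Cl_stab {J : (Fin D → ℕ) → Prop} (hJ : ∀ a b ν, a < b → J ν → J (fm a b ν)) (N n : ℕ) :
    Stab (Cl J N n) := by
  constructor
  · rintro ν ν' ⟨M, hM, s, h1, h2, h3⟩ h
    exact ⟨M, hM, s, h1, h2, h3.trans (nsmul_le_nsmul_right h M)⟩
  · rintro ρ a b hab ⟨M, hM, s, h1, h2, h3⟩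
    refine ⟨M * (ρ a + 1), by positivity, ρ a • s + s.map (fm a b), ?_, ?_, ?_⟩
    · intro g hg
      rcases Multiset.mem_add.mp hg with hg | hg
      · exact h1 g (Multiset.mem_of_mem_nsmul hg)
      · obtain ⟨g', hg', rfl⟩ := Multiset.mem_map.mp hg
        exact ⟨hJ a b g' hab (h1 g' hg').1, by rw [sum_fm hab.ne]; exact (h1 g' hg').2⟩
    · simp only [Multiset.card_add, Multiset.card_nsmul, Multiset.card_map, h2]
      ring
    · rw [Multiset.sum_add, Multiset.sum_nsmul, ← map_multiset_sum]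
      have e1 : (ρ a + 1) • (ρ + Pi.single b 1 : Fin D → ℕ) =
          ρ a • (ρ + Pi.single a 1 : Fin D → ℕ) + fm a b (ρ + Pi.single a 1) := by
        funext t
        have hne := hab.ne
        simp only [Pi.add_apply, Pi.smul_apply, smul_eq_mul, fm_apply, Pi.single_apply]
        by_cases h1 : t = a
        · subst h1; simp [hne]; ring
        · by_cases h2 : t = b
          · subst h2; simp [h1]; ring
          · simp [h1, h2]; ring
      calc ρ a • s.sum + fm a b s.sum
          ≤ ρ a • (M • (ρ + Pi.single a 1 : Fin D → ℕ)) + fm a b (M • (ρ + Pi.single a 1)) :=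
            add_le_add (nsmul_le_nsmul_right h3 _) (fm_mono a b h3)
        _ = M • (ρ a • (ρ + Pi.single a 1 : Fin D → ℕ) + fm a b (ρ + Pi.single a 1)) := by
            rw [map_nsmul, smul_comm (ρ a) M, ← smul_add]
        _ = _ := by rw [← e1, mul_smul]

theorem Cl_smul {J : (Fin D → ℕ) → Prop} (N n : ℕ) (ν : Fin D → ℕ) (h : Cl J N 1 ν) :
    Cl J N n (n • ν) := by
  obtain ⟨M, hM, s, h1, h2, h3⟩ := h
  refine ⟨M, hM, n • s, fun g hg => h1 g (Multiset.mem_of_mem_nsmul hg), ?_, ?_⟩
  · simp only [Multiset.card_nsmul, h2]; ring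
  · rw [Multiset.sum_nsmul, smul_comm]
    exact nsmul_le_nsmul_right h3 n

theorem Cl_one {J : (Fin D → ℕ) → Prop} {N : ℕ} (hN : ∀ ν, N ≤ ∑ t, ν t → J ν)
    (ν : Fin D → ℕ) (h : J ν) : Cl J N 1 ν := by
  obtain ⟨g, hg, h1, h2⟩ : ∃ g ≤ ν, J g ∧ ∑ t, g t ≤ N := by
    rcases le_total N (∑ t, ν t) with h' | h'
    · obtain ⟨g, hg, hg'⟩ := exists_le_sum_eq N ν h'
      exact ⟨g, hg, hN g hg'.ge, hg'.le⟩
    · exact ⟨ν, le_rfl, h, h'⟩
  exact ⟨1, one_pos, {g}, by simpa using ⟨h1, h2⟩, by simp, by simpa using hg⟩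

theorem Cl_floor {J : (Fin D → ℕ) → Prop} {N n : ℕ} {ν : Fin D → ℕ} (h : Cl J N n ν) :
    ∃ s : Multiset (Fin D → ℕ), (∀ g ∈ s, J g) ∧ n ≤ Multiset.card s + (N + 1) ^ D ∧
      s.sum ≤ ν := by
  classical
  obtain ⟨M, hM, s, h1, h2, h3⟩ := h
  let s' : Multiset (Fin D → ℕ) := ∑ g ∈ s.toFinset, (s.count g / M) • ({g} : Multiset _)
  have hc : ∀ g, s'.count g = s.count g / M := by
    intro g
    simp only [s', Multiset.count_sum', Multiset.count_nsmul, Multiset.count_singleton, mul_ite,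
      mul_one, mul_zero, sum_ite_eq, Multiset.mem_toFinset]
    split_ifs with hg
    · rfl
    · simp [Multiset.count_eq_zero.mpr hg]
  have hle : M • s' ≤ s := by
    rw [Multiset.le_iff_count]
    intro g
    rw [Multiset.count_nsmul, hc]
    exact Nat.mul_div_le _ _
  refine ⟨s', fun g hg => (h1 g (Multiset.mem_of_le hle ?_)).1, ?_, ?_⟩
  · exact (Multiset.mem_nsmul_of_ne_zero hM.ne').mpr hg
  · have hsub : s.toFinset ⊆ tup (N + 1) D := by
      intro g hg
      simp only [tup, Fintype.mem_piFinset, mem_range]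
      intro t
      have a1 := (h1 g (Multiset.mem_toFinset.mp hg)).2
      have a2 : g t ≤ ∑ t, g t := single_le_sum (f := g) (fun _ _ => Nat.zero_le _) (mem_univ t)
      omega
    have a1 : s.toFinset.card ≤ (N + 1) ^ D := by
      have := card_le_card hsub
      simpa [tup] using this
    have a2 : Multiset.card s' = ∑ g ∈ s.toFinset, s.count g / M := by
      simp [s', Multiset.card_sum]
    have a3 : Multiset.card s ≤ M * (Multiset.card s' + s.toFinset.card) := by
      rw [← Multiset.toFinset_sum_count_eq s, a2, card_eq_sum_ones s.toFinset, ← sum_add_distrib,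
        mul_sum]
      exact sum_le_sum fun g _ => (Nat.lt_mul_div_succ _ hM).le
    rw [h2] at a3
    have := Nat.le_of_mul_le_mul_left a3 hM
    omega
  · obtain ⟨r, hr⟩ := Multiset.le_iff_exists_add.mp hle
    rw [hr, Multiset.sum_add, Multiset.sum_nsmul] at h3
    intro t
    have := (le_self_add.trans h3) t
    simp only [Pi.smul_apply, smul_eq_mul] at this
    exact Nat.le_of_mul_le_mul_left this hM

end Pool.Agent.P.MP_eae75b_ag
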