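import Mathlib

/-! A Polya-urn inequality for antitone weights on multisets of natural numbers. -/

namespace Pool.Agent.P.MP_eae75b_ag

open Finset

/-- Dominance order on multisets of naturals. -/
def Dom (M M' : Multiset ℕ) : Prop := ∀ t : ℕ, M.countP (t < ·) ≤ M'.countP (t < ·)

def AntiW (φ : Multiset ℕ → ℕ) : Prop :=
  ∀ M M' : Multiset ℕ, Multiset.card M = Multiset.card M' → Dom M M' → φ M' ≤ φ M

def pad (D : ℕ) (M : Multiset ℕ) : Multiset ℕ :=
  M + Multiset.replicate (D - Multiset.card M) M.sup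

def mset {j : ℕ} (f : Fin j → ℕ) : Multiset ℕ := (List.ofFn f : Multiset ℕ)

def tup (B j : ℕ) : Finset (Fin j → ℕ) := Fintype.piFinset fun _ => range B

def tsum (B j : ℕ) (g : Multiset ℕ → ℕ) : ℕ := ∑ f ∈ tup B j, g (mset f)

def symF (B D : ℕ) : Finset (Multiset ℕ) :=
  ((range B).sym D).map ⟨Subtype.val, Subtype.val_injective⟩

theorem mem_symF {B D : ℕ} {M : Multiset ℕ} :
    M ∈ symF B D ↔ Multiset.card M = D ∧ ∀ a ∈ M, a < B := by
  unfold symF
  simp only [mem_map, Function.Embedding.coeFn_mk]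
  constructor
  · rintro ⟨m, hm, rfl⟩
    exact ⟨m.2, fun a ha => mem_range.mp ((mem_sym_iff (m := m)).mp hm a ha)⟩
  · rintro ⟨h1, h2⟩
    exact ⟨⟨M, h1⟩, (mem_sym_iff (m := ⟨M, h1⟩)).mpr fun a ha => mem_range.mpr (h2 a ha), rfl⟩

theorem card_mset {j : ℕ} (f : Fin j → ℕ) : Multiset.card (mset f) = j := by
  simp [mset]

theorem mset_cons {j : ℕ} (a : ℕ) (f : Fin j → ℕ) :
    mset (Fin.cons a f : Fin (j + 1) → ℕ) = a ::ₘ mset f := by
  simp [mset, List.ofFn_succ]

theorem tsum_succ (B j : ℕ) (g : Multiset ℕ → ℕ) :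
    tsum B (j + 1) g = tsum B j fun M => ∑ a ∈ range B, g (a ::ₘ M) := by
  unfold tsum
  rw [← sum_product']
  symm
  refine sum_bij' (fun p _ => (Fin.cons p.2 p.1 : Fin (j + 1) → ℕ))
    (fun f _ => (Fin.tail f, f 0)) ?_ ?_ ?_ ?_ ?_
  · rintro ⟨f, a⟩ h
    simp only [tup, mem_product, Fintype.mem_piFinset] at h ⊢
    intro i
    refine Fin.cases ?_ (fun i => ?_) i
    · simpa using h.2
    · simpa using h.1 i
  · intro f h
    simp only [tup, mem_product, Fintype.mem_piFinset] at h ⊢
    exact ⟨fun i => h _, h 0⟩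
  · rintro ⟨f, a⟩ _
    simp
  · intro f _
    simp
  · rintro ⟨f, a⟩ _
    simp [mset_cons]

theorem tsum_mono {B j : ℕ} {g g' : Multiset ℕ → ℕ}
    (h : ∀ M, Multiset.card M = j → g M ≤ g' M) : tsum B j g ≤ tsum B j g' :=
  sum_le_sum fun f _ => h _ (card_mset f)

theorem Dom.refl (M : Multiset ℕ) : Dom M M := fun _ => le_rfl

theorem Dom.trans {M M' M'' : Multiset ℕ} (h : Dom M M') (h' : Dom M' M'') : Dom M M'' :=
  fun t => (h t).trans (h' t)

theorem Dom.cons {M M' : Multiset ℕ} {a a' : ℕ} (h : Dom M M') (ha : a ≤ a') :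
    Dom (a ::ₘ M) (a' ::ₘ M') := by
  intro t
  have := h t
  simp only [Multiset.countP_cons]
  split_ifs <;> omega

theorem Dom.add {M M' L L' : Multiset ℕ} (h : Dom M M') (h' : Dom L L') :
    Dom (M + L) (M' + L') := by
  intro t
  have := h t
  have := h' t
  simp only [Multiset.countP_add]
  omega

theorem Dom.replicate (r : ℕ) {a a' : ℕ} (ha : a ≤ a') :
    Dom (Multiset.replicate r a) (Multiset.replicate r a') := by
  induction r with
  | zero => exact Dom.refl _
  | succ r ih => simpa [Multiset.replicate_succ] using ih.cons ha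

theorem Dom.sup_le {M M' : Multiset ℕ} (h : Dom M M') : M.sup ≤ M'.sup := by
  rw [Multiset.sup_le]
  intro a ha
  by_contra hc
  have h1 := h M'.sup
  have h2 : 0 < M.countP (M'.sup < ·) := Multiset.countP_pos.mpr ⟨a, ha, by omega⟩
  have h3 : M'.countP (M'.sup < ·) = 0 := by
    rw [Multiset.countP_eq_zero]
    intro b hb
    have := Multiset.le_sup hb
    omega
  omega

theorem sup_pad (D : ℕ) (M : Multiset ℕ) : (pad D M).sup = M.sup := by
  apply le_antisymm
  · rw [Multiset.sup_le]
    intro a ha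
    rw [pad, Multiset.mem_add] at ha
    rcases ha with ha | ha
    · exact Multiset.le_sup ha
    · exact (Multiset.eq_of_mem_replicate ha).le
  · exact Multiset.sup_mono (Multiset.subset_of_le (Multiset.le_add_right _ _))

theorem card_pad {D : ℕ} {M : Multiset ℕ} (h : Multiset.card M ≤ D) :
    Multiset.card (pad D M) = D := by
  simp [pad]; omega

theorem pad_succ {D : ℕ} {M : Multiset ℕ} (h : Multiset.card M ≤ D) :
    pad (D + 1) M = (pad D M).sup ::ₘ pad D M := by
  rw [sup_pad, pad, pad, show D + 1 - Multiset.card M = (D - Multiset.card M) + 1 by omega,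
    Multiset.replicate_succ, Multiset.add_cons]

theorem dom_cons_pad (D a : ℕ) (M : Multiset ℕ) :
    Dom (a ::ₘ pad D M) (pad (D + 1) (a ::ₘ M)) := by
  rw [pad, pad, Multiset.card_cons, Nat.add_sub_add_right, ← Multiset.cons_add]
  refine (Dom.refl _).add (Dom.replicate _ ?_)
  simp

theorem sum_symF_succ (B D : ℕ) (φ : Multiset ℕ → ℕ) :
    (D + 1) * ∑ M ∈ symF B (D + 1), φ M =
      ∑ M ∈ symF B D, ∑ a ∈ range B, (M.count a + 1) * φ (a ::ₘ M) := by
  have h1 : ∀ M ∈ symF B (D + 1), (D + 1) * φ M = ∑ a ∈ range B, M.count a * φ M := by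
    intro M hM
    rw [mem_symF] at hM
    rw [← sum_mul, Multiset.sum_count_eq_card (fun a ha => mem_range.mpr (hM.2 a ha)), hM.1]
  rw [mul_sum, sum_congr rfl h1, sum_comm]
  symm
  rw [sum_comm]
  refine sum_congr rfl fun a ha => ?_
  refine sum_of_injOn (fun M => a ::ₘ M) ?_ ?_ ?_ ?_
  · intro M _ M' _ h
    exact (Multiset.cons_inj_right a).mp h
  · intro M hM
    rw [mem_coe, mem_symF] at hM ⊢
    refine ⟨by simp [hM.1], fun b hb => ?_⟩
    rcases Multiset.mem_cons.mp hb with rfl | hb
    · exact mem_range.mp ha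
    · exact hM.2 b hb
  · intro M hM hn
    have : a ∉ M := by
      intro haM
      apply hn
      rw [mem_symF] at hM
      refine ⟨M.erase a, mem_coe.mpr (mem_symF.mpr
        ⟨?_, fun b hb => hM.2 b (Multiset.mem_of_mem_erase hb)⟩), Multiset.cons_erase haM⟩
      rw [Multiset.card_erase_of_mem haM, hM.1]; rfl
    simp [Multiset.count_eq_zero.mpr this]
  · intro M _
    simp

theorem polya (B : ℕ) : ∀ (D : ℕ) (φ : Multiset ℕ → ℕ), AntiW φ →
    ∑ j ∈ range (D + 1), Nat.stirlingFirst D j * tsum B j (fun M => φ (pad D M))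
      ≤ D.factorial * ∑ M ∈ symF B D, φ M := by
  intro D
  induction D with
  | zero =>
    intro φ _
    have : symF B 0 = {0} := by
      ext M; simp only [mem_symF, Multiset.card_eq_zero, mem_singleton]
      constructor
      · exact fun h => h.1
      · rintro rfl; simp
    simp [this, tsum, tup, mset, pad]
  | succ D ih =>
    intro φ hφ
    set φN : Multiset ℕ → ℕ := fun M => ∑ a ∈ range B, φ (a ::ₘ M) with hN
    set φK : Multiset ℕ → ℕ := fun M => φ (M.sup ::ₘ M) with hK
    have hNa : AntiW φN := fun M M' hc hd =>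
      sum_le_sum fun a _ => hφ _ _ (by simp [hc]) (hd.cons le_rfl)
    have hKa : AntiW φK := fun M M' hc hd => hφ _ _ (by simp [hc]) (hd.cons hd.sup_le)
    have i1 := ih φN hNa
    have i2 := ih φK hKa
    set E : ℕ → ℕ := fun j => tsum B j (fun M => φ (pad (D + 1) M)) with hE
    have e1 : ∀ j ∈ range (D + 1), Nat.stirlingFirst D j * E (j + 1) ≤
        Nat.stirlingFirst D j * tsum B j (fun M => φN (pad D M)) := by
      intro j hj
      refine Nat.mul_le_mul_left _ ?_
      simp only [hE]
      rw [tsum_succ]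
      refine tsum_mono fun M hM => sum_le_sum fun a _ => hφ _ _ ?_ (dom_cons_pad D a M)
      have hj' := mem_range.mp hj
      rw [Multiset.card_cons, card_pad (by omega), card_pad (by simp; omega)]
    have e2 : ∀ j ∈ range (D + 1), Nat.stirlingFirst D j * E j ≤
        Nat.stirlingFirst D j * tsum B j (fun M => φK (pad D M)) := by
      intro j hj
      refine Nat.mul_le_mul_left _ (tsum_mono fun M hM => ?_)
      have hj' := mem_range.mp hj
      rw [pad_succ (by omega)]
    have e3 : ∑ j ∈ range (D + 1), Nat.stirlingFirst D (j + 1) * E (j + 1) ≤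
        ∑ j ∈ range (D + 1), Nat.stirlingFirst D j * E j := by
      have a1 := sum_range_succ' (fun j => Nat.stirlingFirst D j * E j) (D + 1)
      have a2 := sum_range_succ (fun j => Nat.stirlingFirst D j * E j) (D + 1)
      rw [Nat.stirlingFirst_eq_zero_of_lt (Nat.lt_succ_self D)] at a2
      omega
    have e4 : ∀ M ∈ symF B D, φN M + D * φK M ≤
        ∑ a ∈ range B, (M.count a + 1) * φ (a ::ₘ M) := by
      intro M hM
      rw [mem_symF] at hM
      have : D * φK M = ∑ a ∈ range B, M.count a * φK M := by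
        rw [← sum_mul, Multiset.sum_count_eq_card (fun a ha => mem_range.mpr (hM.2 a ha)), hM.1]
      rw [this, hN, ← sum_add_distrib]
      refine sum_le_sum fun a _ => ?_
      by_cases ha : a ∈ M
      · have : φK M ≤ φ (a ::ₘ M) := hφ _ _ (by simp) ((Dom.refl M).cons (Multiset.le_sup ha))
        nlinarith
      · simp [Multiset.count_eq_zero.mpr ha]
    have e5 := sum_le_sum e4
    rw [sum_add_distrib, ← mul_sum, ← sum_symF_succ] at e5
    have e6 := sum_le_sum e1
    have e7 := sum_le_sum e2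
    calc ∑ j ∈ range (D + 1 + 1), Nat.stirlingFirst (D + 1) j * E j
        = D * ∑ j ∈ range (D + 1), Nat.stirlingFirst D (j + 1) * E (j + 1)
          + ∑ j ∈ range (D + 1), Nat.stirlingFirst D j * E (j + 1) := by
          rw [sum_range_succ', Nat.stirlingFirst_succ_zero, zero_mul, add_zero, mul_sum,
            ← sum_add_distrib]
          refine sum_congr rfl fun j _ => ?_
          rw [Nat.stirlingFirst_succ_succ]; ring
      _ ≤ D * (D.factorial * ∑ M ∈ symF B D, φK M) + D.factorial * ∑ M ∈ symF B D, φN M :=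
          add_le_add (Nat.mul_le_mul_left _ (e3.trans (e7.trans i2))) (e6.trans i1)
      _ = D.factorial * (∑ M ∈ symF B D, φN M + D * ∑ M ∈ symF B D, φK M) := by ring
      _ ≤ D.factorial * ((D + 1) * ∑ M ∈ symF B (D + 1), φ M) := Nat.mul_le_mul_left _ e5
      _ = _ := by rw [Nat.factorial_succ]; ring

theorem coeff_ascPochhammer (n : ℕ) : ∀ j, (ascPochhammer ℕ n).coeff j = Nat.stirlingFirst n j := by
  induction n with
  | zero =>
    intro j
    cases j with
    | zero => simp
    | succ j => simp [Polynomial.coeff_one]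
  | succ n ih =>
    intro j
    rw [ascPochhammer_succ_right, mul_add, Polynomial.coeff_add]
    cases j with
    | zero =>
      rw [Polynomial.coeff_mul_natCast, ih]
      cases n <;> simp
    | succ j =>
      rw [Polynomial.coeff_mul_X, Polynomial.coeff_mul_natCast, ih, ih, Nat.stirlingFirst_succ_succ]
      simp; ring

end Pool.Agent.P.MP_eae75b_ag
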