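import Pool.Agent.P.MP_eae75b_ag.Comb

/-! Counting exponent vectors outside a stable family, through suffix sums. -/

namespace Pool.Agent.P.MP_eae75b_ag

open Finset

variable {D : ℕ}

def suf (ν : Fin D → ℕ) (t : ℕ) : ℕ := ∑ s : Fin D, if t ≤ s.val then ν s else 0

theorem suf_add (ν μ : Fin D → ℕ) (t : ℕ) : suf (ν + μ) t = suf ν t + suf μ t := by
  unfold suf
  rw [← sum_add_distrib]
  refine sum_congr rfl fun s _ => ?_
  split_ifs <;> simp

theorem suf_smul (n : ℕ) (ν : Fin D → ℕ) (t : ℕ) : suf (n • ν) t = n * suf ν t := by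
  unfold suf
  rw [mul_sum]
  refine sum_congr rfl fun s _ => ?_
  split_ifs <;> simp

theorem suf_single (a : Fin D) (t : ℕ) :
    suf (Pi.single a 1 : Fin D → ℕ) t = if t ≤ a.val then 1 else 0 := by
  unfold suf
  rw [sum_eq_single a]
  · simp
  · intro b _ hb
    simp [Pi.single_eq_of_ne hb]
  · simp

theorem suf_of_le (ν : Fin D → ℕ) {t : ℕ} (h : D ≤ t) : suf ν t = 0 := by
  unfold suf
  refine sum_eq_zero fun s _ => ?_
  have := s.isLt
  rw [if_neg (by omega)]

theorem suf_succ (ν : Fin D → ℕ) (a : Fin D) : suf ν a.val = ν a + suf ν (a.val + 1) := by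
  unfold suf
  have : ∀ s : Fin D, (if a.val ≤ s.val then ν s else 0) =
      (if s = a then ν s else 0) + (if a.val + 1 ≤ s.val then ν s else 0) := by
    intro s
    by_cases h : s = a
    · subst h; simp
    · have : s.val ≠ a.val := fun h' => h (Fin.ext h')
      rw [if_neg h]
      split_ifs <;> omega
  rw [sum_congr rfl fun s _ => this s, sum_add_distrib]
  simp

theorem suf_anti (ν : Fin D → ℕ) : Antitone (suf ν) := by
  intro t t' h
  unfold suf
  refine sum_le_sum fun s _ => ?_
  split_ifs <;> omega

theorem suf_inj {ν μ : Fin D → ℕ} (h : ∀ t, suf ν t = suf μ t) : ν = μ := by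
  funext a
  have h1 := suf_succ ν a
  have h2 := suf_succ μ a
  have h3 := h a.val
  have h4 := h (a.val + 1)
  omega

theorem suf_zero (ν : Fin D → ℕ) : suf ν 0 = ∑ s, ν s := by
  simp [suf]

def dif (D : ℕ) (z : ℕ → ℕ) : Fin D → ℕ := fun s => z s.val - z (s.val + 1)

theorem suf_dif {z : ℕ → ℕ} (hz : Antitone z) (h0 : ∀ t, D ≤ t → z t = 0) (t : ℕ) :
    suf (dif D z) t = z t := by
  by_cases ht : D ≤ t
  · rw [suf_of_le _ ht, h0 t ht]
  · obtain ⟨m, hm⟩ : ∃ m, t + m = D := ⟨D - t, by omega⟩
    clear ht
    induction m generalizing t with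
    | zero => rw [suf_of_le _ (by omega), h0 t (by omega)]
    | succ m ih =>
      have h1 := suf_succ (dif D z) ⟨t, by omega⟩
      have h2 := ih (t + 1) (by omega)
      have h3 : z (t + 1) ≤ z t := hz (Nat.le_succ t)
      simp only [dif] at h1 h2 ⊢
      omega

/-- Upward closed and closed under moving one unit to a later coordinate. -/
structure Stab (T : (Fin D → ℕ) → Prop) : Prop where
  up : ∀ ν ν', T ν → ν ≤ ν' → T ν'
  move : ∀ (ν : Fin D → ℕ) (a b : Fin D), a < b → T (ν + Pi.single a 1) → T (ν + Pi.single b 1)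

theorem Stab.dom {T : (Fin D → ℕ) → Prop} (hT : Stab T) {ν ν' : Fin D → ℕ} (h : T ν)
    (hd : ∀ t, suf ν t ≤ suf ν' t) : T ν' := by
  classical
  obtain ⟨m, hm⟩ : ∃ m, ∑ t ∈ range D, (suf ν' t - suf ν t) = m := ⟨_, rfl⟩
  induction m generalizing ν with
  | zero =>
    have : ν = ν' := by
      refine suf_inj fun t => ?_
      by_cases ht : t < D
      · have := (sum_eq_zero_iff.mp hm) t (mem_range.mpr ht)
        have := hd t
        omega
      · rw [suf_of_le _ (by omega), suf_of_le _ (by omega)]
    exact this ▸ h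
  | succ m ih =>
    have hex : ∃ t, suf ν t < suf ν' t := by
      by_contra hc
      push Not at hc
      have : ∑ t ∈ range D, (suf ν' t - suf ν t) = 0 :=
        sum_eq_zero fun t _ => by have := hc t; omega
      omega
    set t := Nat.find hex with ht
    have ht1 : suf ν t < suf ν' t := Nat.find_spec hex
    have htD : t < D := by
      by_contra hc
      rw [suf_of_le ν' (by omega)] at ht1
      omega
    have key : ∃ ν1, T ν1 ∧ ∀ s, suf ν1 s = suf ν s + if s = t then 1 else 0 := by
      by_cases h0 : t = 0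
      · refine ⟨ν + Pi.single ⟨t, htD⟩ 1, hT.up _ _ h le_self_add, fun s => ?_⟩
        rw [suf_add, suf_single]
        simp only
        split_ifs <;> omega
      · have hp : ¬ suf ν (t - 1) < suf ν' (t - 1) := Nat.find_min hex (by omega)
        have h1 := suf_succ ν ⟨t - 1, by omega⟩
        have h2 : suf ν' t ≤ suf ν' (t - 1) := suf_anti ν' (by omega)
        simp only [show t - 1 + 1 = t by omega] at h1
        have h3 : 1 ≤ ν ⟨t - 1, by omega⟩ := by omega
        have h4 : (Pi.single (⟨t - 1, by omega⟩ : Fin D) 1 : Fin D → ℕ) ≤ ν := by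
          intro s
          by_cases hs : s = ⟨t - 1, by omega⟩
          · subst hs; simpa using h3
          · simp [Pi.single_eq_of_ne hs]
        obtain ⟨ρ, hρ⟩ := exists_add_of_le h4
        rw [add_comm] at hρ
        refine ⟨ρ + Pi.single ⟨t, htD⟩ 1, hT.move ρ ⟨t - 1, by omega⟩ _ ?_ (hρ ▸ h), fun s => ?_⟩
        · rw [Fin.lt_def]; simp only; omega
        · rw [hρ, suf_add, suf_add, suf_single, suf_single]
          simp only
          split_ifs <;> omega
    obtain ⟨ν1, hν1, hs⟩ := key
    refine ih hν1 (fun s => ?_) ?_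
    · rw [hs]
      have := hd s
      split_ifs with h'
      · subst h'; omega
      · omega
    · have e1 : ∀ s ∈ range D, suf ν' s - suf ν s =
          (suf ν' s - suf ν1 s) + if s = t then 1 else 0 := by
        intro s _
        rw [hs]
        split_ifs with h'
        · subst h'; omega
        · omega
      rw [sum_congr rfl e1, sum_add_distrib, sum_ite_eq', if_pos (mem_range.mpr htD)] at hm
      omega

theorem countP_mset {j : ℕ} (z : Fin j → ℕ) (p : ℕ → Prop) [DecidablePred p] :
    (mset z).countP p = (univ.filter fun t => p (z t)).card := by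
  rw [mset, ← Fin.univ_val_map, Multiset.countP_map]
  rfl

theorem le_of_dom {j : ℕ} {z w : Fin j → ℕ} (hz : Antitone z) (hw : Antitone w)
    (h : Dom (mset z) (mset w)) (t : Fin j) : z t ≤ w t := by
  by_contra hc
  have h1 := h (w t)
  rw [countP_mset, countP_mset] at h1
  have h2 : Iic t ⊆ univ.filter fun s => w t < z s := by
    intro s hs
    have := hz (mem_Iic.mp hs)
    simp only [mem_filter, mem_univ, true_and]
    omega
  have h3 : (univ.filter fun s => w t < w s) ⊆ Iio t := by
    intro s hs
    simp only [mem_filter, mem_univ, true_and] at hs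
    rw [mem_Iio]
    by_contra hc'
    have := hw (not_lt.mp hc')
    omega
  have h4 := card_le_card h2
  have h5 := card_le_card h3
  rw [Fin.card_Iic] at h4
  rw [Fin.card_Iio] at h5
  omega

theorem mset_comp_perm {j : ℕ} (z : Fin j → ℕ) (σ : Equiv.Perm (Fin j)) :
    mset (z ∘ σ) = mset z := by
  unfold mset
  exact Multiset.coe_eq_coe.mpr (Equiv.Perm.ofFn_comp_perm σ z)

theorem exists_antitone (M : Multiset ℕ) (hM : Multiset.card M = D) :
    ∃ z : Fin D → ℕ, Antitone z ∧ mset z = M := by
  induction M using Quotient.inductionOn with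
  | h l =>
    have hl : l.length = D := by simpa using hM
    subst hl
    let f : Fin l.length → ℕᵒᵈ := fun t => OrderDual.toDual (l.get t)
    refine ⟨l.get ∘ Tuple.sort f, fun a b hab => Tuple.monotone_sort f hab, ?_⟩
    rw [mset_comp_perm, mset, List.ofFn_get]
    rfl

def msuf (ν : Fin D → ℕ) : Multiset ℕ := mset fun t : Fin D => suf ν t.val

open Classical in
noncomputable def wt0 (T : (Fin D → ℕ) → Prop) (M : Multiset ℕ) : ℕ :=
  if ∃ ν, ¬ T ν ∧ Dom M (msuf ν) then 1 else 0

theorem wt0_anti (T : (Fin D → ℕ) → Prop) : AntiW (wt0 T) := by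
  intro M M' _ hd
  unfold wt0
  split_ifs with h1 h2
  · exact le_rfl
  · obtain ⟨ν, h3, h4⟩ := h1
    exact absurd ⟨ν, h3, hd.trans h4⟩ h2
  · exact Nat.zero_le _
  · exact le_rfl

theorem sum_wt0_le {T : (Fin D → ℕ) → Prop} (hT : Stab T) (L : Finset (Fin D → ℕ))
    (hL : ∀ ν, ¬ T ν → ν ∈ L) (B : ℕ) : ∑ M ∈ symF B D, wt0 T M ≤ L.card := by
  classical
  unfold wt0
  rw [sum_boole]
  simp only [Nat.cast_id]
  refine (card_le_card (t := L.image msuf) ?_).trans card_image_le
  intro M hM
  rw [mem_filter, mem_symF] at hM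
  obtain ⟨⟨hc, -⟩, ν, hν, hd⟩ := hM
  obtain ⟨z, hz, rfl⟩ := exists_antitone M hc
  let z' : ℕ → ℕ := fun t => if h : t < D then z ⟨t, h⟩ else 0
  have hz' : Antitone z' := by
    intro a b hab
    simp only [z']
    split_ifs with h1 h2
    · exact hz (show (⟨a, h2⟩ : Fin D) ≤ ⟨b, h1⟩ from hab)
    · omega
    · exact Nat.zero_le _
    · exact le_rfl
  have h0 : ∀ t, D ≤ t → z' t = 0 := fun t ht => dif_neg (by omega)
  have hs := suf_dif hz' h0
  refine mem_image.mpr ⟨dif D z', hL _ fun hc => hν (hT.dom hc fun t => ?_), ?_⟩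
  · rw [hs]
    simp only [z']
    split_ifs with h1
    · exact le_of_dom hz (fun a b hab => suf_anti ν hab) hd ⟨t, h1⟩
    · exact Nat.zero_le _
  · unfold msuf
    congr 1
    funext t
    rw [hs]
    simp [z']

theorem sup_mset_le {j : ℕ} (q : Fin j → ℕ) (c : ℕ) (h : ∀ t, q t ≤ c) : (mset q).sup ≤ c := by
  rw [Multiset.sup_le]
  intro a ha
  simp only [mset, Multiset.mem_coe, List.mem_ofFn] at ha
  obtain ⟨t, rfl⟩ := ha
  exact h t

theorem count_le {i j : ℕ} (Cl : ℕ → (Fin (i + j) → ℕ) → Prop) (n B : ℕ) (hn : 0 < n)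
    (hS : Stab (Cl n)) (hsm : ∀ ν, Cl 1 ν → Cl n (n • ν))
    (hB : ∀ ν, ¬ Cl 1 ν → ∑ s, ν s < B) (S : Finset (Fin (i + j) → ℕ))
    (hS0 : ∀ ν ∈ S, ∀ s : Fin (i + j), s.val < i → ν s = 0) (hS1 : ∀ ν ∈ S, ¬ Cl n ν) :
    j.factorial * S.card ≤
      (n + (i + j)) ^ j * tsum B j fun M => wt0 (Cl 1) (pad (i + j) M) := by
  classical
  set N := n + (i + j) with hN
  have hNpos : 0 < N := by omega
  let w : (Fin (i + j) → ℕ) → Fin j → ℕ := fun ν t => suf ν (i + t.val) + (j - 1 - t.val)
  have hw : ∀ ν, StrictAnti (w ν) := by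
    intro ν a b hab
    have h1 : suf ν (i + b.val) ≤ suf ν (i + a.val) :=
      suf_anti ν (by have := Fin.lt_def.mp hab; omega)
    have h2 := Fin.lt_def.mp hab
    have h3 := b.isLt
    simp only [w]
    omega
  have hsuf : ∀ ν ∈ S, ∀ t, t ≤ i → suf ν t = suf ν i := by
    intro ν hν t ht
    unfold suf
    refine sum_congr rfl fun s _ => ?_
    by_cases hs : s.val < i
    · simp [hS0 ν hν s hs]
    · rw [if_pos (by omega), if_pos (by omega)]
  let F := (tup B j).filter fun f => wt0 (Cl 1) (pad (i + j) (mset f)) = 1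
  have hF : F.card ≤ tsum B j fun M => wt0 (Cl 1) (pad (i + j) M) := by
    unfold tsum
    rw [card_filter]
    refine sum_le_sum fun f _ => ?_
    split_ifs with h
    · exact h.ge
    · exact Nat.zero_le _
  have hmem : ∀ ν ∈ S, ∀ σ : Equiv.Perm (Fin j), (fun t => w ν (σ t) / N) ∈ F := by
    intro ν hν σ
    let z : ℕ → ℕ := fun t =>
      if t < i + j then (suf ν (max t i) + (i + j - 1 - max t i)) / N else 0
    have hz : Antitone z := by
      intro a b hab
      simp only [z]
      split_ifs with h1 h2
      · refine Nat.div_le_div_right ?_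
        have : suf ν (max b i) ≤ suf ν (max a i) := suf_anti ν (max_le_max hab le_rfl)
        omega
      · omega
      · exact Nat.zero_le _
      · exact le_rfl
    have h0 : ∀ t, i + j ≤ t → z t = 0 := fun t ht => if_neg (by omega)
    have hs := suf_dif hz h0
    have hzq : ∀ t : Fin j, z (i + t.val) = w ν t / N := by
      intro t
      have := t.isLt
      simp only [z, w]
      rw [if_pos (by omega), max_eq_left (by omega)]
      congr 2
      omega
    have hnot : ¬ Cl 1 (dif (i + j) z) := by
      intro hc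
      refine hS1 ν hν (hS.dom (hsm _ hc) fun t => ?_)
      rw [suf_smul, hs]
      simp only [z]
      split_ifs with h1
      · have e1 : suf ν (max t i) = suf ν t := by
          rcases le_total t i with h | h
          · rw [max_eq_right h, hsuf ν hν t h]
          · rw [max_eq_left h]
        rw [e1]
        set q := (suf ν t + (i + j - 1 - max t i)) / N with hq
        have e2 : N * q ≤ suf ν t + (i + j - 1 - max t i) := Nat.mul_div_le _ _
        rcases Nat.eq_zero_or_pos q with h | h
        · simp [h]
        · have e3 : i + j ≤ (i + j) * q := Nat.le_mul_of_pos_right _ h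
          have e4 : N * q = n * q + (i + j) * q := by rw [hN]; ring
          omega
      · simp
    have hBz := hB _ hnot
    rw [← suf_zero, hs] at hBz
    rw [mem_filter]
    constructor
    · simp only [tup, Fintype.mem_piFinset, mem_range]
      intro t
      rw [← hzq]
      exact lt_of_le_of_lt (hz (Nat.zero_le _)) hBz
    · unfold wt0
      rw [if_pos]
      refine ⟨_, hnot, ?_⟩
      have e1 : mset (fun t => w ν (σ t) / N) = mset fun t => w ν t / N :=
        mset_comp_perm (fun t => w ν t / N) σ
      have e2 : msuf (dif (i + j) z) =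
          (mset fun t => w ν t / N) + Multiset.replicate i (z i) := by
        unfold msuf mset
        rw [List.ofFn_add, ← Multiset.coe_add, add_comm]
        congr 1
        · congr 2
          funext t
          rw [hs, ← hzq]
          rfl
        · rw [← Multiset.coe_replicate, ← List.ofFn_const]
          congr 2
          funext t
          rw [hs]
          have := t.isLt
          simp only [z, Fin.val_castLE]
          rw [max_eq_right (by omega), max_self]
          by_cases hj : j = 0
          · subst hj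
            have : suf ν i = 0 := suf_of_le _ (by omega)
            simp [this]
          · rw [if_pos (by omega), if_pos (by omega)]
      rw [e1, e2, pad, card_mset, Nat.add_sub_cancel]
      refine (Dom.refl _).add (Dom.replicate _ (sup_mset_le _ _ fun t => ?_))
      rw [← hzq]
      exact hz (Nat.le_add_right _ _)
  have hcard : ((univ : Finset (Equiv.Perm (Fin j))) ×ˢ S).card ≤ (F ×ˢ tup N j).card := by
    refine card_le_card_of_injOn
      (fun p => (fun t => w p.2 (p.1 t) / N, fun t => w p.2 (p.1 t) % N)) ?_ ?_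
    · rintro ⟨σ, ν⟩ hp
      simp only [coe_product, Set.mem_prod, mem_coe] at hp ⊢
      refine ⟨hmem ν hp.2 σ, ?_⟩
      simp only [tup, Fintype.mem_piFinset, mem_range]
      exact fun t => Nat.mod_lt _ hNpos
    · rintro ⟨σ, ν⟩ hp ⟨σ', ν'⟩ hp' h
      simp only [coe_product, Set.mem_prod, mem_coe] at hp hp'
      simp only [Prod.mk.injEq] at h
      have e1 : w ν ∘ σ = w ν' ∘ σ' := by
        funext t
        have a1 : w ν (σ t) / N = w ν' (σ' t) / N := congrFun h.1 t
        have a2 : w ν (σ t) % N = w ν' (σ' t) % N := congrFun h.2 t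
        simp only [Function.comp]
        rw [← Nat.div_add_mod (w ν (σ t)) N, ← Nat.div_add_mod (w ν' (σ' t)) N, a1, a2]
      have e2 : w ν = w ν' := by
        refine ((hw ν).range_inj (hw ν')).mp ?_
        rw [← σ.surjective.range_comp, ← σ'.surjective.range_comp (w ν'), e1]
      have e3 : σ = σ' := by
        ext t
        have := congrFun e1 t
        simp only [Function.comp] at this
        rw [← e2] at this
        rw [(hw ν).injective this]
      have e4 : ν = ν' := by
        have a0 : ∀ t, i ≤ t → suf ν t = suf ν' t := by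
          intro t ht
          by_cases h1 : t < i + j
          · have := congrFun e2 ⟨t - i, by omega⟩
            simp only [w, show i + (t - i) = t by omega] at this
            omega
          · rw [suf_of_le _ (by omega), suf_of_le _ (by omega)]
        refine suf_inj fun t => ?_
        rcases le_total t i with h1 | h1
        · rw [hsuf ν hp.2 t h1, hsuf ν' hp'.2 t h1, a0 i le_rfl]
        · exact a0 t h1
      rw [e3, e4]
  rw [card_product, card_product, card_univ, Fintype.card_perm, Fintype.card_fin] at hcard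
  have e5 : (tup N j).card = N ^ j := by simp [tup]
  rw [e5] at hcard
  calc _ ≤ F.card * N ^ j := hcard
    _ ≤ _ := by rw [mul_comm]; exact Nat.mul_le_mul_left _ hF

end Pool.Agent.P.MP_eae75b_ag
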