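import Pool.Agent.P.MP_eae75b_ag.Red

/-! Maximal-weight monomial bases in general coordinates, and their stability. -/

namespace Pool.Agent.P.MP_eae75b_ag

open Finset Matrix Module

theorem tri_vecMul {k ι : Type} [Field k] [Fintype ι] [DecidableEq ι] (U : Matrix ι ι k)
    (w : ι → ℕ) (h1 : ∀ p, U p p = 1) (h2 : ∀ p r, U p r ≠ 0 → r = p ∨ w r < w p)
    (β : ι → k) (hβ : β ≠ 0) : ∃ p, β p ≠ 0 ∧ (β ᵥ* U) p = β p := by
  classical
  obtain ⟨p, hp, hmax⟩ := exists_max_image (univ.filter fun p => β p ≠ 0) w (by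
    obtain ⟨p, hp⟩ := Function.ne_iff.mp hβ
    exact ⟨p, by simpa using hp⟩)
  refine ⟨p, by simpa using hp, ?_⟩
  rw [vecMul, dotProduct, sum_eq_single p]
  · simp [h1]
  · intro q _ hq
    by_contra hc
    rcases h2 q p (right_ne_zero_of_mul hc) with h | h
    · exact hq h.symm
    · have := hmax q (by simpa using left_ne_zero_of_mul hc)
      omega
  · simp

theorem tri_zero {k ι : Type} [Field k] [Fintype ι] [DecidableEq ι] (U : Matrix ι ι k)
    (w : ι → ℕ) (h1 : ∀ p, U p p = 1) (h2 : ∀ p r, U p r ≠ 0 → r = p ∨ w r < w p)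
    (u : ι → k) (W : ℕ) (h3 : ∀ r, u r ≠ 0 → w r < W)
    (h4 : ∀ p, w p < W → (U.updateRow p u).det = 0) : u = 0 := by
  have hdet : U.det ≠ 0 := by
    intro h
    obtain ⟨β, hβ, h0⟩ := Matrix.exists_vecMul_eq_zero_iff.mpr h
    obtain ⟨p, hp, hp'⟩ := tri_vecMul U w h1 h2 β hβ
    rw [h0] at hp'
    exact hp hp'.symm
  have hc : cramer Uᵀ u ᵥ* U = U.det • u := by
    rw [← mulVec_transpose, mulVec_cramer, det_transpose]
  by_cases hβ : cramer Uᵀ u = 0
  · rw [hβ, zero_vecMul] at hc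
    exact (smul_eq_zero.mp hc.symm).resolve_left hdet
  · obtain ⟨p, hp, hp'⟩ := tri_vecMul U w h1 h2 _ hβ
    rw [hc] at hp'
    have : u p ≠ 0 := by
      intro h
      rw [Pi.smul_apply, h, smul_zero] at hp'
      exact hp hp'.symm
    rw [cramer_transpose_apply] at hp
    exact absurd (h4 p (h3 p this)) hp

variable {k R : Type} [Field k] [CommRing R] [Algebra k R] {D : ℕ}

def lin (x : Fin D → R) (c : Matrix (Fin D) (Fin D) k) : Fin D → R := fun j => ∑ t, c j t • x t

def vec (I : Ideal R) (y : Fin D → R) (ν : Fin D → ℕ) : R ⧸ I := Ideal.Quotient.mk I (mon y ν)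

theorem lin_one (x : Fin D → R) : lin x (1 : Matrix (Fin D) (Fin D) k) = x := by
  funext j
  simp [lin, Matrix.one_apply]

theorem lin_lin (x : Fin D → R) (c c' : Matrix (Fin D) (Fin D) k) :
    lin (lin x c) c' = lin x (c' * c) := by
  funext j
  simp only [lin, smul_sum, Matrix.mul_apply, sum_smul, smul_smul]
  exact sum_comm

theorem span_lin_le (x : Fin D → R) (c : Matrix (Fin D) (Fin D) k) :
    Ideal.span (Set.range (lin x c)) ≤ Ideal.span (Set.range x) := by
  rw [Ideal.span_le]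
  rintro _ ⟨j, rfl⟩
  exact Ideal.sum_mem _ fun t _ =>
    Submodule.smul_of_tower_mem _ _ (Ideal.subset_span (Set.mem_range_self t))

theorem span_lin (x : Fin D → R) {c : Matrix (Fin D) (Fin D) k} (hc : c.det ≠ 0) :
    Ideal.span (Set.range (lin x c)) = Ideal.span (Set.range x) := by
  refine le_antisymm (span_lin_le x c) ?_
  have := span_lin_le (lin x c) c⁻¹
  rwa [lin_lin, Matrix.nonsing_inv_mul _ (Ne.isUnit hc), lin_one] at this

theorem lin_updateRow (x : Fin D → R) (c : Matrix (Fin D) (Fin D) k) (a b : Fin D) (s : k) :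
    lin x (c.updateRow a (c a + s • c b)) =
      Function.update (lin x c) a (lin x c a + s • lin x c b) := by
  funext j
  by_cases h : j = a
  · subst h
    simp [lin, add_smul, sum_add_distrib, smul_sum, smul_smul]
  · simp [lin, Function.update_of_ne h, updateRow_ne h]

def th (a b : Fin D) (t : ℕ) (ν : Fin D → ℕ) : Fin D → ℕ :=
  Function.update ν a 0 + Pi.single a (ν a - t) + Pi.single b t

theorem update_add_single (a : Fin D) (ν : Fin D → ℕ) :
    Function.update ν a 0 + Pi.single a (ν a) = ν := by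
  funext s
  by_cases h : s = a
  · subst h; simp
  · simp [Function.update_of_ne h, Pi.single_eq_of_ne h]

theorem th_zero (a b : Fin D) (ν : Fin D → ℕ) : th a b 0 ν = ν := by
  simp [th, update_add_single]

theorem th_full {a b : Fin D} (hab : a ≠ b) (ν : Fin D → ℕ) : th a b (ν a) ν = fm a b ν := by
  funext s
  simp only [th, fm_apply, Pi.add_apply, Pi.single_apply, Function.update_apply]
  by_cases h1 : s = a
  · subst h1; simp [hab]
  · by_cases h2 : s = b
    · subst h2; simp [h1]; omega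
    · simp [h1, h2]

theorem th_inj {a b : Fin D} (hab : a ≠ b) (ν : Fin D → ℕ) {t t' : ℕ}
    (h : th a b t ν = th a b t' ν) : t = t' := by
  have := congrFun h b
  simpa [th, Pi.single_eq_of_ne hab.symm] using this

theorem wt_th (ω : Fin D → ℕ) (a b : Fin D) (ν : Fin D → ℕ) {t : ℕ} (ht : t ≤ ν a) :
    wt ω (th a b t ν) + ω a * t = wt ω ν + ω b * t := by
  have h1 : wt ω ν = wt ω (Function.update ν a 0) + ω a * ν a := by
    conv_lhs => rw [← update_add_single a ν]
    rw [wt_add, wt_single]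
  obtain ⟨r, hr⟩ := Nat.exists_eq_add_of_le ht
  rw [th, wt_add, wt_add, wt_single, wt_single, h1, hr, Nat.add_sub_cancel_left]
  ring

theorem mon_update (y : Fin D → R) (a b : Fin D) (s : k) (ν : Fin D → ℕ) :
    mon (Function.update y a (y a + s • y b)) ν =
      ∑ t ∈ range (ν a + 1), (((ν a).choose t : k) * s ^ t) • mon y (th a b t ν) := by
  have h1 : mon (Function.update y a (y a + s • y b)) (Function.update ν a 0) =
      mon y (Function.update ν a 0) := by
    refine prod_congr rfl fun j _ => ?_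
    by_cases h : j = a
    · subst h; simp
    · simp [Function.update_of_ne h]
  conv_lhs => rw [← update_add_single a ν]
  rw [mon_add, h1, mon_single, Function.update_self, add_comm (y a), add_pow, mul_sum]
  refine sum_congr rfl fun t _ => ?_
  rw [th, mon_add, mon_add, mon_single, mon_single, smul_pow, Algebra.smul_def, Algebra.smul_def]
  simp only [map_mul, map_natCast, map_pow]
  ring

variable {ι : Type} [Fintype ι] [DecidableEq ι]

def Good (x : Fin D → R) (I : Ideal R) (b : Basis ι k (R ⧸ I)) (c : Matrix (Fin D) (Fin D) k)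
    (Λ : ι → Fin D → ℕ) : Prop :=
  c.det ≠ 0 ∧ b.det (fun p => vec I (lin x c) (Λ p)) ≠ 0

def Best (x : Fin D → R) (I : Ideal R) (b : Basis ι k (R ⧸ I)) (ω : Fin D → ℕ)
    (Λ : ι → Fin D → ℕ) : Prop :=
  ∀ c' Λ', Good x I b c' Λ' → ∑ p, wt ω (Λ' p) ≤ ∑ p, wt ω (Λ p)

variable {x : Fin D → R} {I : Ideal R} {N : ℕ} {b : Basis ι k (R ⧸ I)} {ω : Fin D → ℕ}

omit [Fintype ι] [DecidableEq ι] in
theorem vec_eq_zero (hN : Ideal.span (Set.range x) ^ N ≤ I) (c : Matrix (Fin D) (Fin D) k)
    {ν : Fin D → ℕ} (h : N ≤ ∑ j, ν j) : vec I (lin x c) ν = 0 :=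
  Ideal.Quotient.eq_zero_iff_mem.mpr
    (hN (Ideal.pow_right_mono (span_lin_le x c) N (mon_mem_pow _ ν h)))

theorem Good.deg (hN : Ideal.span (Set.range x) ^ N ≤ I) {c : Matrix (Fin D) (Fin D) k}
    {Λ : ι → Fin D → ℕ} (h : Good x I b c Λ) (p : ι) : ∑ j, Λ p j < N := by
  by_contra hc
  exact h.2 (b.det.map_coord_zero p (vec_eq_zero hN c (not_lt.mp hc)))

theorem exists_best (hN : Ideal.span (Set.range x) ^ N ≤ I) (ω : Fin D → ℕ)
    (h : ∃ c Λ, Good x I b c Λ) : ∃ c Λ, Good x I b c Λ ∧ Best x I b ω Λ := by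
  let T : Set ℕ := {n | ∃ c Λ, Good x I b c Λ ∧ ∑ p, wt ω (Λ p) = n}
  have hne : T.Nonempty := by
    obtain ⟨c, Λ, h⟩ := h
    exact ⟨_, c, Λ, h, rfl⟩
  have hb : BddAbove T := by
    refine ⟨∑ _p : ι, (∑ j, ω j) * N, ?_⟩
    rintro _ ⟨c, Λ, h, rfl⟩
    exact sum_le_sum fun p _ => (wt_le ω _).trans (Nat.mul_le_mul_left _ (h.deg hN p).le)
  obtain ⟨c, Λ, h1, h2⟩ := Nat.sSup_mem hne hb
  exact ⟨c, Λ, h1, fun c' Λ' h' => h2 ▸ le_csSup hb ⟨c', Λ', h', rfl⟩⟩

theorem Good.basis {c : Matrix (Fin D) (Fin D) k} {Λ : ι → Fin D → ℕ} (h : Good x I b c Λ) :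
    ∃ e : Basis ι k (R ⧸ I), ∀ p, e p = vec I (lin x c) (Λ p) := by
  obtain ⟨h1, h2⟩ := b.is_basis_iff_det.mpr (Ne.isUnit h.2)
  exact ⟨Basis.mk h1 h2.ge, fun p => by simp⟩

theorem Best.update {Λ : ι → Fin D → ℕ} (hb : Best x I b ω Λ) (e : Basis ι k (R ⧸ I))
    {c' : Matrix (Fin D) (Fin D) k} (hc : c'.det ≠ 0) (p : ι) (μ : Fin D → ℕ)
    (h : e.det (fun q => vec I (lin x c') (Function.update Λ p μ q)) ≠ 0) :
    wt ω μ ≤ wt ω (Λ p) := by
  have h1 := hb c' (Function.update Λ p μ) ⟨hc, by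
    rw [AlternatingMap.eq_smul_basis_det e b.det, AlternatingMap.smul_apply, smul_eq_mul]
    exact mul_ne_zero (b.isUnit_det e).ne_zero h⟩
  have h2 : (fun q => wt ω (Function.update Λ p μ q)) =
      Function.update (fun q => wt ω (Λ q)) p (wt ω μ) := by
    funext q
    exact Function.apply_update (fun _ ν => wt ω ν) Λ p μ q
  rw [h2, sum_update_of_mem (mem_univ p), ← add_sum_erase _ _ (mem_univ p), sdiff_singleton_eq_erase]
    at h1
  omega

theorem Best.exch {Λ : ι → Fin D → ℕ} (hb : Best x I b ω Λ) {c : Matrix (Fin D) (Fin D) k}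
    (hc : c.det ≠ 0) {e : Basis ι k (R ⧸ I)} (he : ∀ p, e p = vec I (lin x c) (Λ p))
    {κ : Fin D → ℕ} {r : ι} (h : e.repr (vec I (lin x c) κ) r ≠ 0) : wt ω κ ≤ wt ω (Λ r) := by
  refine hb.update e hc r κ ?_
  have : (fun q => vec I (lin x c) (Function.update Λ r κ q)) =
      Function.update e r (vec I (lin x c) κ) := by
    funext q
    rw [Function.apply_update (fun _ ν => vec I (lin x c) ν) Λ r κ q]
    congr 1
    funext q
    exact (he q).symm
  rw [this, Basis.det_apply, Basis.toMatrix_update, Basis.toMatrix_self, ← cramer_apply,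
    cramer_one]
  exact h

theorem Best.exch' (hN : Ideal.span (Set.range x) ^ N ≤ I)
    (hω : ∀ ν κ : Fin D → ℕ, ∑ j, ν j < N → ∑ j, κ j < N → wt ω ν = wt ω κ → ν = κ)
    {Λ : ι → Fin D → ℕ} (hb : Best x I b ω Λ) {c : Matrix (Fin D) (Fin D) k}
    (hg : Good x I b c Λ) {e : Basis ι k (R ⧸ I)} (he : ∀ p, e p = vec I (lin x c) (Λ p))
    {κ : Fin D → ℕ} {r : ι} (h : e.repr (vec I (lin x c) κ) r ≠ 0) :
    κ = Λ r ∨ wt ω κ < wt ω (Λ r) := by
  rcases (hb.exch hg.1 he h).eq_or_lt with h1 | h1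
  · refine Or.inl (hω _ _ ?_ (hg.deg hN r) h1)
    by_contra hc
    rw [vec_eq_zero hN c (not_lt.mp hc)] at h
    simp at h
  · exact Or.inr h1

theorem Best.red_iff (hN : Ideal.span (Set.range x) ^ N ≤ I)
    (hω : ∀ ν κ : Fin D → ℕ, ∑ j, ν j < N → ∑ j, κ j < N → wt ω ν = wt ω κ → ν = κ)
    {Λ : ι → Fin D → ℕ} (hb : Best x I b ω Λ) {c : Matrix (Fin D) (Fin D) k}
    (hg : Good x I b c Λ) (κ : Fin D → ℕ) :
    Red k (lin x c) ω I κ ↔ κ ∉ Set.range Λ := by
  obtain ⟨e, he⟩ := hg.basis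
  constructor
  · rintro ⟨f, hf, h1⟩ ⟨r, rfl⟩
    let ξ : R →ₗ[k] k := (e.coord r).comp (Ideal.Quotient.mkₐ k I).toLinearMap
    have h2 : Hi k (lin x c) ω (wt ω (Λ r)) ≤ LinearMap.ker ξ := by
      rw [Hi, Submodule.span_le]
      rintro _ ⟨κ, hκ, rfl⟩
      by_contra hc
      have := hb.exch hg.1 he (κ := κ) (r := r) hc
      omega
    have h3 : ξ (mon (lin x c) (Λ r) - f) = 0 := h2 h1
    have h4 : ξ f = 0 := by
      simp [ξ, Ideal.Quotient.eq_zero_iff_mem.mpr hf]
    have h5 : ξ (mon (lin x c) (Λ r)) = 1 := by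
      have : ξ (mon (lin x c) (Λ r)) = e.repr (vec I (lin x c) (Λ r)) r := rfl
      rw [this, ← he]
      simp
    rw [map_sub, h4, h5] at h3
    simp at h3
  · intro hκ
    refine ⟨mon (lin x c) κ - ∑ r, e.repr (vec I (lin x c) κ) r • mon (lin x c) (Λ r), ?_, ?_⟩
    · rw [← Ideal.Quotient.eq_zero_iff_mem, map_sub, sub_eq_zero]
      have h1 := e.sum_repr (vec I (lin x c) κ)
      refine h1.symm.trans ?_
      rw [← Ideal.Quotient.mkₐ_eq_mk k, map_sum]
      refine sum_congr rfl fun r _ => ?_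
      rw [map_smul, he]
      rfl
    · rw [sub_sub_cancel]
      refine Submodule.sum_mem _ fun r _ => ?_
      by_cases h : e.repr (vec I (lin x c) κ) r = 0
      · simp [h]
      · refine Submodule.smul_mem _ _ (Submodule.subset_span ⟨Λ r, ?_, rfl⟩)
        exact (hb.exch' hN hω hg he h).resolve_left fun h' => hκ ⟨r, h'.symm⟩

theorem Best.stable [Infinite k] (hN : Ideal.span (Set.range x) ^ N ≤ I)
    (hω : ∀ ν κ : Fin D → ℕ, ∑ j, ν j < N → ∑ j, κ j < N → wt ω ν = wt ω κ → ν = κ)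
    (hω' : StrictAnti ω)
    {Λ : ι → Fin D → ℕ} (hb : Best x I b ω Λ) {c : Matrix (Fin D) (Fin D) k}
    (hg : Good x I b c Λ) {a a' : Fin D} (haa : a < a') {μ : Fin D → ℕ}
    (hμ : μ ∉ Set.range Λ) : fm a a' μ ∉ Set.range Λ := by
  rintro ⟨i0, hi0⟩
  obtain ⟨e, he⟩ := hg.basis
  have hne : a ≠ a' := haa.ne
  have hlt : ω a' < ω a := hω' haa
  let A : (Fin D → ℕ) → ι → k := fun κ r => e.repr (vec I (lin x c) κ) r
  let F : (Fin D → ℕ) → ι → Polynomial k := fun ν r => ∑ t ∈ range (ν a + 1),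
    Polynomial.monomial (wt ω (Λ r) - wt ω (th a a' t ν)) (((ν a).choose t : k) * A (th a a' t ν) r)
  have hterm : ∀ ν r t, Polynomial.eval 0 (Polynomial.monomial (wt ω (Λ r) - wt ω (th a a' t ν))
      (((ν a).choose t : k) * A (th a a' t ν) r)) ≠ 0 → th a a' t ν = Λ r := by
    intro ν r t h
    rw [Polynomial.eval_monomial] at h
    have h1 : A (th a a' t ν) r ≠ 0 := right_ne_zero_of_mul (left_ne_zero_of_mul h)
    have h2 : wt ω (Λ r) - wt ω (th a a' t ν) = 0 := by
      by_contra hc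
      exact right_ne_zero_of_mul h (zero_pow hc)
    exact (hb.exch' hN hω hg he h1).resolve_right (by omega)
  have hu1 : ∀ ν r, (F ν r).eval 0 ≠ 0 → Λ r = ν ∨ wt ω (Λ r) < wt ω ν := by
    intro ν r h
    rw [Polynomial.eval_finsetSum] at h
    obtain ⟨t, ht, h1⟩ := exists_ne_zero_of_sum_ne_zero h
    have h2 := hterm ν r t h1
    have h3 := wt_th ω a a' ν (Nat.lt_succ_iff.mp (mem_range.mp ht))
    rcases Nat.eq_zero_or_pos t with h4 | h4
    · left; rw [← h2, h4, th_zero]
    · right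
      have := Nat.mul_lt_mul_of_pos_right hlt h4
      rw [h2] at h3
      omega
  have hu2 : ∀ ν r t, t ≤ ν a → th a a' t ν = Λ r → (F ν r).eval 0 = ((ν a).choose t : k) := by
    intro ν r t ht h
    rw [Polynomial.eval_finsetSum, sum_eq_single t]
    · simp [h, A, ← he]
    · intro t' _ htt
      by_contra hc
      exact htt (th_inj hne ν ((hterm ν r t' hc).trans h.symm))
    · intro h'
      exact absurd (mem_range.mpr (Nat.lt_succ_of_le ht)) h'
  have hinj : ∀ p q, Λ p = Λ q → p = q := fun p q h => e.injective (by rw [he, he, h])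
  have hev : ∀ (l : k) ν r, l ^ wt ω ν * (F ν r).eval l =
      e.repr (vec I (lin x (c.updateRow a (c a + l ^ (ω a - ω a') • c a'))) ν) r
        * l ^ wt ω (Λ r) := by
    intro l ν r
    have h1 : vec I (lin x (c.updateRow a (c a + l ^ (ω a - ω a') • c a'))) ν =
        ∑ t ∈ range (ν a + 1), (((ν a).choose t : k) * (l ^ (ω a - ω a')) ^ t) •
          vec I (lin x c) (th a a' t ν) := by
      rw [vec, lin_updateRow, mon_update, ← Ideal.Quotient.mkₐ_eq_mk k, map_sum]
      refine sum_congr rfl fun t _ => ?_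
      rw [map_smul]
      rfl
    rw [h1, map_sum, Finsupp.coe_finsetSum, Finset.sum_apply, Polynomial.eval_finsetSum, mul_sum,
      sum_mul]
    refine sum_congr rfl fun t ht => ?_
    rw [map_smul, Finsupp.smul_apply, smul_eq_mul, Polynomial.eval_monomial]
    change _ = _ * A (th a a' t ν) r * _
    by_cases h0 : A (th a a' t ν) r = 0
    · simp [h0]
    · have h2 := hb.exch hg.1 he h0
      have h3 := wt_th ω a a' ν (Nat.lt_succ_iff.mp (mem_range.mp ht))
      have h4 : wt ω ν + (wt ω (Λ r) - wt ω (th a a' t ν)) = (ω a - ω a') * t + wt ω (Λ r) := by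
        have : ω a' * t ≤ ω a * t := Nat.mul_le_mul_right _ hlt.le
        rw [Nat.sub_mul]
        omega
      calc _ = ((ν a).choose t : k) * A (th a a' t ν) r *
              l ^ (wt ω ν + (wt ω (Λ r) - wt ω (th a a' t ν))) := by rw [pow_add]; ring
        _ = _ := by rw [h4, pow_add, pow_mul]; ring
  let U : Matrix ι ι k := Matrix.of fun p r => (F (Λ p) r).eval 0
  have hzero := tri_zero U (fun p => wt ω (Λ p))
    (fun p => by simpa [U] using hu2 (Λ p) p 0 (Nat.zero_le _) (th_zero _ _ _))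
    (fun p r h => (hu1 _ _ h).imp_left (hinj r p))
    (fun r => (F μ r).eval 0) (wt ω μ)
    (fun r h => (hu1 _ _ h).resolve_left fun h' => hμ ⟨r, h'⟩)
    (fun p hp => by
      by_contra hdet
      let MF : Matrix ι ι (Polynomial k) := Matrix.of fun q r => F (Function.update Λ p μ q) r
      have h1 : MF.det.eval 0 = (U.updateRow p fun r => (F μ r).eval 0).det := by
        rw [← Polynomial.coe_evalRingHom, RingHom.map_det]
        congr 1
        ext q r
        by_cases hq : q = p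
        · subst hq; simp [MF]
        · simp [MF, U, updateRow_ne hq, Function.update_of_ne hq]
      have h2 : Polynomial.X * MF.det ≠ 0 := by
        refine mul_ne_zero Polynomial.X_ne_zero fun h => hdet ?_
        rw [← h1, h, Polynomial.eval_zero]
      obtain ⟨l, hl⟩ : ∃ l : k, (Polynomial.X * MF.det).eval l ≠ 0 := by
        by_contra hc
        push Not at hc
        exact h2 (Polynomial.zero_of_eval_zero _ hc)
      rw [Polynomial.eval_mul, Polynomial.eval_X] at hl
      have hl0 : l ≠ 0 := left_ne_zero_of_mul hl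
      have hl1 : MF.det.eval l ≠ 0 := right_ne_zero_of_mul hl
      have h3 : wt ω μ ≤ wt ω (Λ p) := by
        refine hb.update e (c' := c.updateRow a (c a + l ^ (ω a - ω a') • c a'))
          (by rw [det_updateRow_add_smul_self _ hne]; exact hg.1) p μ ?_
        intro h0
        rw [Basis.det_apply, ← det_transpose] at h0
        have h4 : diagonal (fun q => l ^ wt ω (Function.update Λ p μ q)) *
            (Polynomial.evalRingHom l).mapMatrix MF =
            (e.toMatrix fun q => vec I (lin x (c.updateRow a (c a + l ^ (ω a - ω a') • c a')))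
              (Function.update Λ p μ q))ᵀ * diagonal fun r => l ^ wt ω (Λ r) := by
          ext q r
          rw [diagonal_mul, mul_diagonal]
          exact hev l _ r
        have h5 := congrArg det h4
        rw [det_mul, det_mul, h0, zero_mul, ← RingHom.map_det, det_diagonal] at h5
        exact mul_ne_zero (prod_ne_zero_iff.mpr fun q _ => pow_ne_zero _ hl0) hl1 h5
      omega)
  have h6 := hu2 μ i0 (μ a) le_rfl (by rw [th_full hne, hi0])
  have h7 := congrFun hzero i0
  simp only [Pi.zero_apply] at h7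
  rw [h7] at h6
  simp at h6

theorem exists_poly_lin {σ : Type} (G : MvPolynomial σ R) (ξ : R →ₗ[k] k) :
    ∃ P : MvPolynomial σ k, ∀ z : σ → k,
      MvPolynomial.eval z P = ξ (MvPolynomial.eval (fun s => algebraMap k R (z s)) G) := by
  induction G using MvPolynomial.induction_on' with
  | monomial m r =>
    refine ⟨MvPolynomial.monomial m (ξ r), fun z => ?_⟩
    rw [MvPolynomial.eval_monomial, MvPolynomial.eval_monomial]
    have : (m.prod fun n e => algebraMap k R (z n) ^ e) =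
        algebraMap k R (m.prod fun n e => z n ^ e) := by
      simp [Finsupp.prod]
    rw [this, mul_comm r, ← Algebra.smul_def, map_smul, smul_eq_mul, mul_comm]
  | add G G' h h' =>
    obtain ⟨P, hP⟩ := h
    obtain ⟨P', hP'⟩ := h'
    exact ⟨P + P', fun z => by simp [hP, hP']⟩

theorem exists_poly {σ : Type} (ce : Matrix (Fin D) (Fin D) (MvPolynomial σ k))
    (Λ : ι → Fin D → ℕ) : ∃ P : MvPolynomial σ k, ∀ z : σ → k,
      MvPolynomial.eval z P ≠ 0 ↔ Good x I b (ce.map (MvPolynomial.eval z)) Λ := by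
  let G : ι → MvPolynomial σ R := fun p =>
    ∏ j, (∑ t, MvPolynomial.map (algebraMap k R) (ce j t) * MvPolynomial.C (x t)) ^ Λ p j
  have hG : ∀ p (z : σ → k), MvPolynomial.eval (fun s => algebraMap k R (z s)) (G p) =
      mon (lin x (ce.map (MvPolynomial.eval z))) (Λ p) := by
    intro p z
    simp only [G, mon, lin, map_prod, map_pow, map_sum, map_mul, MvPolynomial.eval_C, map_apply]
    refine prod_congr rfl fun j _ => ?_
    congr 1
    refine sum_congr rfl fun t _ => ?_
    rw [Algebra.smul_def, MvPolynomial.eval_map]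
    congr 1
    exact (MvPolynomial.eval₂_comp_left (algebraMap k R) (RingHom.id k) z (ce j t)).symm
  choose Q hQ using fun r p =>
    exists_poly_lin (G p) ((b.coord r).comp (Ideal.Quotient.mkₐ k I).toLinearMap)
  refine ⟨ce.det * (Matrix.of Q).det, fun z => ?_⟩
  rw [map_mul, mul_ne_zero_iff, RingHom.map_det, RingHom.map_det, Good, Basis.det_apply]
  have : (MvPolynomial.eval z).mapMatrix (Matrix.of Q) =
      b.toMatrix fun p => vec I (lin x (ce.map (MvPolynomial.eval z))) (Λ p) := by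
    ext r p
    simp only [RingHom.mapMatrix_apply, map_apply, of_apply, hQ, hG]
    rfl
  rw [this]
  rfl

theorem exists_weight (D N : ℕ) : ∃ ω : Fin D → ℕ, StrictAnti ω ∧
    ∀ ν κ : Fin D → ℕ, ∑ j, ν j < N → ∑ j, κ j < N → wt ω ν = wt ω κ → ν = κ := by
  refine ⟨fun j => (N + 2) ^ (j.rev : ℕ), ?_, ?_⟩
  · intro a b hab
    exact Nat.pow_lt_pow_right (by omega) (Fin.rev_lt_rev.mpr hab)
  · intro ν κ hν hκ h
    have hb : ∀ ν : Fin D → ℕ, ∑ j, ν j < N → ∀ j, ν j < N + 2 := by
      intro ν hν j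
      have := single_le_sum (f := ν) (fun _ _ => Nat.zero_le _) (mem_univ j)
      omega
    have key : ∀ (ν : Fin D → ℕ) (hν : ∑ j, ν j < N), wt (fun j => (N + 2) ^ (j.rev : ℕ)) ν =
        finFunctionFinEquiv fun j : Fin D => (⟨ν j.rev, hb ν hν _⟩ : Fin (N + 2)) := by
      intro ν hν
      rw [finFunctionFinEquiv_apply, wt, ← Equiv.sum_comp Fin.revPerm]
      refine sum_congr rfl fun j _ => ?_
      simp [mul_comm]
    rw [key ν hν, key κ hκ] at h
    have h1 := finFunctionFinEquiv.injective (Fin.ext h)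
    funext j
    have := congrFun h1 j.rev
    simpa using this

end Pool.Agent.P.MP_eae75b_ag
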