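import Pool.Agent.P.MP_eae75b_ag.Generic

/-! Assembly of the Stirling-number refinement of Lech's inequality. -/

namespace Pool.Agent.P.MP_eae75b_ag

open Finset Matrix Module

theorem count_le' {D i j : ℕ} (hD : D = i + j) (Cl : ℕ → (Fin D → ℕ) → Prop) (n B : ℕ)
    (hn : 0 < n) (hS : Stab (Cl n)) (hsm : ∀ ν, Cl 1 ν → Cl n (n • ν))
    (hB : ∀ ν, ¬ Cl 1 ν → ∑ s, ν s < B) (S : Finset (Fin D → ℕ))
    (hS0 : ∀ ν ∈ S, ∀ s : Fin D, s.val < i → ν s = 0) (hS1 : ∀ ν ∈ S, ¬ Cl n ν) :
    j.factorial * S.card ≤ (n + D) ^ j * tsum B j fun M => wt0 (Cl 1) (pad D M) := by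
  subst hD
  exact count_le Cl n B hn hS hsm hB S hS0 hS1

theorem abstract_main {k R : Type} [Field k] [Infinite k] [CommRing R] [Algebra k R] {d : ℕ}
    (x : Fin (d + 1) → R)
    (hk : ∀ f : R, ∃ a : k, f - algebraMap k R a ∈ Ideal.span (Set.range x))
    (I : Ideal R) (N : ℕ) (hN : Ideal.span (Set.range x) ^ N ≤ I) :
    Module.Finite k (R ⧸ I) ∧ ∃ P : MvPolynomial (Fin d × Fin (d + 1)) k, P ≠ 0 ∧
      ∃ (E : ℕ → ℕ) (K : ℕ),
        ∑ j ∈ range (d + 1 + 1), Nat.stirlingFirst (d + 1) j * E j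
          ≤ (d + 1).factorial * finrank k (R ⧸ I) ∧
        ∀ c : Fin d → Fin (d + 1) → k, MvPolynomial.eval (fun p => c p.1 p.2) P ≠ 0 →
          ∀ i ≤ d, ∀ (n : ℕ) (K' : Ideal R), I ^ n ≤ K' →
            (∀ j : Fin d, j.val < i → ∑ t, c j t • x t ∈ K') →
            Module.Finite k (R ⧸ K') ∧
              (d + 1 - i).factorial * finrank k (R ⧸ K') ≤ (n + K) ^ (d + 1 - i) * E (d + 1 - i) := by
  classical
  obtain ⟨ω, hω', hω⟩ := exists_weight (d + 1) N
  have hsmall : ∀ (y : Fin (d + 1) → R) (K : Ideal R) (M : ℕ), Ideal.span (Set.range y) ^ M ≤ K →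
      ∀ ν, ¬ Red k y ω K ν → ν ∈ tup M (d + 1) := by
    intro y K M hM ν hν
    simp only [tup, Fintype.mem_piFinset, mem_range]
    intro t
    by_contra hc
    have := single_le_sum (f := ν) (fun _ _ => Nat.zero_le _) (mem_univ t)
    exact hν (Red.of_mem (hM (mon_mem_pow y ν (by omega))))
  have hfin : Module.Finite k (R ⧸ I) :=
    (finrank_le_card (ω := ω) (i := 0) hk hN le_rfl (fun s hs => absurd hs (by omega))
      (tup N (d + 1)) fun ν _ hν => hsmall x I N hN ν hν).1
  refine ⟨hfin, ?_⟩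
  obtain ⟨ι, Λ0, -, hsp, hli⟩ := exists_linearIndependent' k (vec I x)
  have htop : Submodule.span k (Set.range (vec I x)) = ⊤ :=
    span_quot_eq_top hk hN _ fun ν => Submodule.subset_span ⟨ν, rfl⟩
  let b : Basis ι k (R ⧸ I) := Basis.mk hli (by rw [hsp, htop])
  have : Finite ι := Module.Finite.finite_basis b
  let _ : Fintype ι := Fintype.ofFinite ι
  have hg0 : Good x I b 1 Λ0 := by
    refine ⟨by simp, ?_⟩
    have : (fun p => vec I (lin x (1 : Matrix _ _ k)) (Λ0 p)) = b := by
      funext p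
      simp [b, lin_one]
    rw [this, Basis.det_self]
    exact one_ne_zero
  obtain ⟨c0, Λ, hg, hb⟩ := exists_best hN ω ⟨_, _, hg0⟩
  let ce : Matrix (Fin (d + 1)) (Fin (d + 1)) (MvPolynomial (Fin d × Fin (d + 1)) k) :=
    Matrix.of fun j t =>
      if h : j.val < d then MvPolynomial.X (⟨j.val, h⟩, t) else MvPolynomial.C (c0 j t)
  obtain ⟨P, hP⟩ := exists_poly (x := x) (I := I) (b := b) ce Λ
  let J : (Fin (d + 1) → ℕ) → Prop := fun ν => ν ∉ Set.range Λ
  have hJN : ∀ ν, N ≤ ∑ t, ν t → J ν := by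
    rintro ν hν ⟨p, rfl⟩
    have := hg.deg hN p
    omega
  have hJm : ∀ a a' ν, a < a' → J ν → J (fm a a' ν) :=
    fun a a' ν haa hν => hb.stable hN hω hω' hg haa hν
  have hL : ∀ ν, ¬ Cl J N 1 ν → ν ∈ Set.range Λ := by
    intro ν hν
    by_contra hc
    exact hν (Cl_one hJN ν hc)
  refine ⟨P, ?_, fun j => tsum N j fun M => wt0 (Cl J N 1) (pad (d + 1) M),
    (N + 1) ^ (d + 1) + (d + 1), ?_, ?_⟩
  · intro h0
    have : ce.map (MvPolynomial.eval fun p : Fin d × Fin (d + 1) => c0 p.1.castSucc p.2) = c0 := by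
      ext j t
      simp only [ce, map_apply, of_apply]
      split_ifs with h
      · simp
      · simp
    have h1 := (hP fun p => c0 p.1.castSucc p.2).mpr (by rw [this]; exact hg)
    rw [h0] at h1
    simp at h1
  · refine (polya N (d + 1) _ (wt0_anti _)).trans (Nat.mul_le_mul_left _ ?_)
    refine (sum_wt0_le (Cl_stab hJm N 1) (univ.image Λ) (fun ν hν => ?_) N).trans ?_
    · obtain ⟨p, rfl⟩ := hL ν hν
      exact mem_image_of_mem _ (mem_univ p)
    · rw [finrank_eq_card_basis b]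
      exact card_image_le
  · intro c hc i hi n K' hK hy
    have hgc := (hP _).mp hc
    set c1 := ce.map (MvPolynomial.eval fun p : Fin d × Fin (d + 1) => c p.1 p.2) with hc1
    have hJ : Red k (lin x c1) ω I = J := by
      funext ν
      exact propext (hb.red_iff hN hω hgc ν)
    have hsp := span_lin x hgc.1
    have hM : Ideal.span (Set.range (lin x c1)) ^ (N * n) ≤ I ^ n := by
      rw [hsp, pow_mul]
      exact Ideal.pow_right_mono hN n
    let S := (tup (N * n) (d + 1)).filter fun ν =>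
      (∀ s : Fin (d + 1), s.val < i → ν s = 0) ∧ ¬ Red k (lin x c1) ω (I ^ n) ν
    obtain ⟨h1, h2⟩ := finrank_le_card (ω := ω) (i := i) (y := lin x c1) (by rw [hsp]; exact hk)
      hM hK (fun s hs => by
        have h3 := hy ⟨s.val, by omega⟩ hs
        have h4 : s.val < d := by omega
        have : lin x c1 s = ∑ t, c ⟨s.val, h4⟩ t • x t := by
          simp [lin, hc1, ce, h4]
        rw [this]; exact h3) S
      (fun ν h0 hν => mem_filter.mpr ⟨hsmall _ _ _ hM ν hν, h0, hν⟩)
    refine ⟨h1, (Nat.mul_le_mul_left _ h2).trans ?_⟩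
    rw [← add_assoc]
    refine count_le' (i := i) (by omega) (Cl J N) (n + (N + 1) ^ (d + 1)) N (by positivity)
      (Cl_stab hJm N _) (Cl_smul N _) (fun ν hν => ?_) S (fun ν hν => (mem_filter.mp hν).2.1)
      (fun ν hν h => (mem_filter.mp hν).2.2 (Red.of_Cl (by rw [hJ]; exact h)))
    obtain ⟨p, rfl⟩ := hL ν hν
    exact hg.deg hN p

theorem sub_const_mem {k : Type} [Field k] {D : ℕ} (f : MvPowerSeries (Fin D) k) :
    ∃ a : k, f - algebraMap k _ a ∈
      Ideal.span (Set.range (MvPowerSeries.X : Fin D → MvPowerSeries (Fin D) k)) := by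
  classical
  refine ⟨MvPowerSeries.constantCoeff f, ?_⟩
  let g : Fin D → MvPowerSeries (Fin D) k := fun j m =>
    if m j ≠ 0 ∧ ∀ s < j, m s = 0 then MvPowerSeries.coeff m f else 0
  have hg : ∀ j m, MvPowerSeries.coeff m (g j) =
      if m j ≠ 0 ∧ ∀ s < j, m s = 0 then MvPowerSeries.coeff m f else 0 := fun _ _ => rfl
  have : f - algebraMap k _ (MvPowerSeries.constantCoeff f) = ∑ j, g j := by
    ext m
    rw [map_sub, map_sum, ← MvPowerSeries.c_eq_algebraMap, MvPowerSeries.coeff_C]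
    simp only [hg]
    by_cases hm : m = 0
    · subst hm; simp
    · rw [if_neg hm, sub_zero]
      have hne : (univ.filter fun j => m j ≠ 0).Nonempty := by
        obtain ⟨j, hj⟩ := Finsupp.ne_iff.mp hm
        exact ⟨j, by simpa using hj⟩
      have h1 := min'_mem _ hne
      rw [sum_eq_single ((univ.filter fun j => m j ≠ 0).min' hne)]
      · rw [if_pos]
        refine ⟨by simpa using h1, fun s hs => ?_⟩
        by_contra hc
        exact absurd (min'_le _ s (by simpa using hc)) (not_le.mpr hs)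
      · intro j _ hj
        rw [if_neg]
        rintro ⟨h2, h3⟩
        have h4 := min'_le (univ.filter fun j => m j ≠ 0) j (by simpa using h2)
        exact (mem_filter.mp h1).2 (h3 _ (lt_of_le_of_ne h4 hj.symm))
      · simp
  rw [this]
  refine Ideal.sum_mem _ fun j _ => Ideal.mem_of_dvd _ (MvPowerSeries.X_dvd_iff.mpr ?_)
    (Ideal.subset_span (Set.mem_range_self j))
  intro m hm
  simp [hg, hm]

theorem length_eq {k : Type} [Field k] {D : ℕ} (K : Ideal (MvPowerSeries (Fin D) k))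
    (h : Module.Finite k (MvPowerSeries (Fin D) k ⧸ K)) :
    (Module.length (MvPowerSeries (Fin D) k) (MvPowerSeries (Fin D) k ⧸ K)).toNat =
      finrank k (MvPowerSeries (Fin D) k ⧸ K) := by
  have h1 := IsLocalRing.length_restrictScalars k (MvPowerSeries (Fin D) k)
    (MvPowerSeries (Fin D) k ⧸ K)
  have hs : Function.Surjective (algebraMap (IsLocalRing.ResidueField k)
      (IsLocalRing.ResidueField (MvPowerSeries (Fin D) k))) := by
    intro q
    obtain ⟨f, rfl⟩ := IsLocalRing.residue_surjective q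
    refine ⟨IsLocalRing.residue k (MvPowerSeries.constantCoeff f), ?_⟩
    rw [IsLocalRing.ResidueField.algebraMap_residue, eq_comm, ← sub_eq_zero, ← map_sub,
      IsLocalRing.residue_eq_zero_iff, IsLocalRing.mem_maximalIdeal, mem_nonunits_iff,
      MvPowerSeries.isUnit_iff_constantCoeff, ← MvPowerSeries.c_eq_algebraMap]
    simp
  rw [Module.length_eq_of_surjective hs, Module.length_eq_one
    (IsLocalRing.ResidueField (MvPowerSeries (Fin D) k))
    (IsLocalRing.ResidueField (MvPowerSeries (Fin D) k)), mul_one,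
    Module.length_eq_finrank] at h1
  rw [← h1]
  simp

theorem le_of_growth {a : ℕ → ℝ} {e E : ℝ} {j K : ℕ} (h : ∀ n, a n ≤ ((n : ℝ) + K) ^ j * E)
    (ht : Filter.Tendsto (fun n : ℕ => a n / (n : ℝ) ^ j) Filter.atTop (nhds e)) : e ≤ E := by
  have h1 : Filter.Tendsto (fun n : ℕ => (1 + (K : ℝ) / n) ^ j * E) Filter.atTop
      (nhds ((1 + 0) ^ j * E)) :=
    ((tendsto_const_nhds.add (tendsto_const_div_atTop_nhds_zero_nat (K : ℝ))).pow j).mul_const E
  simp only [add_zero, one_pow, one_mul] at h1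
  refine le_of_tendsto_of_tendsto ht h1 ?_
  filter_upwards [Filter.eventually_gt_atTop 0] with n hn
  have hn' : (0 : ℝ) < n := by exact_mod_cast hn
  rw [div_le_iff₀ (by positivity)]
  refine (h n).trans (le_of_eq ?_)
  rw [mul_right_comm, ← mul_pow]
  congr 2
  field_simp

theorem main (k : Type) [Field k] [Infinite k] (d r : ℕ) (hr : r ≤ d + 1)
    (I : Ideal (MvPowerSeries (Fin (d+1)) k))
    (hI : I.radical =
      Ideal.span (Set.range (MvPowerSeries.X : Fin (d+1) → MvPowerSeries (Fin (d+1)) k))) :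
    ∃ P : MvPolynomial (Fin d × Fin (d+1)) k, P ≠ 0 ∧
      ∀ c : Fin d → Fin (d+1) → k, MvPolynomial.eval (fun p => c p.1 p.2) P ≠ 0 →
        ∀ e : Fin r → ℝ,
          (∀ i : Fin r, Filter.Tendsto
            (fun n : ℕ => ((Nat.factorial (d+1-i.val) : ℝ) *
              ((Module.length (MvPowerSeries (Fin (d+1)) k)
                (MvPowerSeries (Fin (d+1)) k ⧸
                  (I ^ n ⊔ Ideal.span {f : MvPowerSeries (Fin (d+1)) k |
                    ∃ j : Fin d, j.val < i.val ∧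
                      f = ∑ t : Fin (d+1), c j t • (MvPowerSeries.X t : MvPowerSeries (Fin (d+1)) k)}))).toNat : ℝ))
              / (n : ℝ) ^ (d+1-i.val))
            Filter.atTop (nhds (e i))) →
          ∑ i : Fin r, ((ascPochhammer ℕ (d+1)).coeff (d+1-i.val) : ℝ) * e i
            ≤ (Nat.factorial (d+1) : ℝ) *
              ((Module.length (MvPowerSeries (Fin (d+1)) k)
                (MvPowerSeries (Fin (d+1)) k ⧸ I)).toNat : ℝ) := by
  obtain ⟨N, hN⟩ := Ideal.exists_radical_pow_le_of_fg I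
    (by rw [hI]; exact Submodule.fg_span (Set.finite_range _))
  rw [hI] at hN
  obtain ⟨hfin, P, hP, E, K, h1, h2⟩ := abstract_main (k := k) _ sub_const_mem I N hN
  refine ⟨P, hP, fun c hc e he => ?_⟩
  have h3 : ∀ i : Fin r, e i ≤ E (d + 1 - i.val) := by
    intro i
    refine le_of_growth (K := K) (fun n => ?_) (he i)
    have hi := i.isLt
    obtain ⟨h4, h5⟩ := h2 c hc i.val (by omega) n
      (I ^ n ⊔ Ideal.span {f : MvPowerSeries (Fin (d+1)) k | ∃ j : Fin d, j.val < i.val ∧
        f = ∑ t : Fin (d+1), c j t • (MvPowerSeries.X t : MvPowerSeries (Fin (d+1)) k)}) le_sup_left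
      (fun j hj => Ideal.mem_sup_right (Ideal.subset_span ⟨j, hj, rfl⟩))
    rw [length_eq _ h4]
    exact_mod_cast h5
  rw [length_eq _ hfin]
  have h6 : ∑ i : Fin r, Nat.stirlingFirst (d + 1) (d + 1 - i.val) * E (d + 1 - i.val) ≤
      ∑ j ∈ range (d + 1 + 1), Nat.stirlingFirst (d + 1) j * E j := by
    rw [← sum_range_reflect _ (d + 1 + 1),
      Fin.sum_univ_eq_sum_range (fun i => Nat.stirlingFirst (d + 1) (d + 1 - i) * E (d + 1 - i)) r]
    exact sum_le_sum_of_subset (range_subset_range.mpr (by omega))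
  calc _ ≤ ∑ i : Fin r, (Nat.stirlingFirst (d + 1) (d + 1 - i.val) : ℝ) * E (d + 1 - i.val) := by
        refine sum_le_sum fun i _ => ?_
        rw [coeff_ascPochhammer]
        exact mul_le_mul_of_nonneg_left (h3 i) (Nat.cast_nonneg _)
    _ ≤ _ := by exact_mod_cast h6.trans h1

end Pool.Agent.P.MP_eae75b_ag
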