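import Pool.Agent.P.MP_eae75b_ag.Closure

/-! Monomials that reduce, modulo an ideal, to monomials of larger weight. -/

namespace Pool.Agent.P.MP_eae75b_ag

open Finset

variable {k R : Type} [Field k] [CommRing R] [Algebra k R] {D : ℕ}

def mon (y : Fin D → R) (ν : Fin D → ℕ) : R := ∏ j, y j ^ ν j

def wt (ω ν : Fin D → ℕ) : ℕ := ∑ j, ω j * ν j

theorem mon_add (y : Fin D → R) (ν μ : Fin D → ℕ) : mon y (ν + μ) = mon y ν * mon y μ := by
  simp [mon, pow_add, prod_mul_distrib]

theorem mon_zero (y : Fin D → R) : mon y 0 = 1 := by simp [mon]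

theorem mon_single (y : Fin D → R) (a : Fin D) (n : ℕ) : mon y (Pi.single a n) = y a ^ n := by
  unfold mon
  rw [prod_eq_single a]
  · simp
  · intro b _ hb; simp [Pi.single_eq_of_ne hb]
  · simp

theorem wt_add (ω ν μ : Fin D → ℕ) : wt ω (ν + μ) = wt ω ν + wt ω μ := by
  simp [wt, mul_add, sum_add_distrib]

theorem wt_single (ω : Fin D → ℕ) (a : Fin D) (n : ℕ) : wt ω (Pi.single a n) = ω a * n := by
  unfold wt
  rw [sum_eq_single a]
  · simp
  · intro b _ hb; simp [Pi.single_eq_of_ne hb]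
  · simp

theorem wt_le (ω ν : Fin D → ℕ) : wt ω ν ≤ (∑ j, ω j) * ∑ j, ν j := by
  unfold wt
  rw [sum_mul]
  exact sum_le_sum fun j _ => Nat.mul_le_mul_left _
    (single_le_sum (f := ν) (fun _ _ => Nat.zero_le _) (mem_univ j))

variable (k) in
def Hi (y : Fin D → R) (ω : Fin D → ℕ) (t : ℕ) : Submodule k R :=
  Submodule.span k {r | ∃ κ, t < wt ω κ ∧ r = mon y κ}

variable (k) in
def Red (y : Fin D → R) (ω : Fin D → ℕ) (K : Ideal R) (ν : Fin D → ℕ) : Prop :=
  ∃ f ∈ K, mon y ν - f ∈ Hi k y ω (wt ω ν)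

variable {y : Fin D → R} {ω : Fin D → ℕ}

theorem Hi_anti {t t' : ℕ} (h : t ≤ t') : Hi k y ω t' ≤ Hi k y ω t :=
  Submodule.span_mono fun _ ⟨κ, h1, h2⟩ => ⟨κ, lt_of_le_of_lt h h1, h2⟩

theorem Hi_mul_mon {t : ℕ} {h : R} (hh : h ∈ Hi k y ω t) (ν : Fin D → ℕ) :
    h * mon y ν ∈ Hi k y ω (t + wt ω ν) := by
  induction hh using Submodule.span_induction with
  | mem r hr =>
    obtain ⟨κ, h1, rfl⟩ := hr
    exact Submodule.subset_span ⟨κ + ν, by rw [wt_add]; omega, (mon_add y κ ν).symm⟩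
  | zero => simp
  | add a b _ _ ha hb => rw [add_mul]; exact add_mem ha hb
  | smul c a _ ha => rw [smul_mul_assoc]; exact Submodule.smul_mem _ c ha

theorem Hi_mul_Hi {t t' : ℕ} {h h' : R} (hh : h ∈ Hi k y ω t) (hh' : h' ∈ Hi k y ω t') :
    h * h' ∈ Hi k y ω (t + t') := by
  induction hh' using Submodule.span_induction with
  | mem r hr =>
    obtain ⟨κ, h1, rfl⟩ := hr
    exact Hi_anti (by omega) (Hi_mul_mon hh κ)
  | zero => simp
  | add a b _ _ ha hb => rw [mul_add]; exact add_mem ha hb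
  | smul c a _ ha => rw [mul_smul_comm]; exact Submodule.smul_mem _ c ha

theorem Red.mul {K K' : Ideal R} {ν ν' : Fin D → ℕ} (h : Red k y ω K ν) (h' : Red k y ω K' ν') :
    Red k y ω (K * K') (ν + ν') := by
  obtain ⟨f, hf, h1⟩ := h
  obtain ⟨f', hf', h2⟩ := h'
  refine ⟨f * f', Ideal.mul_mem_mul hf hf', ?_⟩
  have e : mon y (ν + ν') - f * f' = (mon y ν - f) * mon y ν' + (mon y ν' - f') * mon y ν
      - (mon y ν - f) * (mon y ν' - f') := by
    rw [mon_add]; ring
  rw [e, wt_add]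
  refine sub_mem (add_mem (Hi_mul_mon h1 ν') ?_) (Hi_mul_Hi h1 h2)
  rw [add_comm]
  exact Hi_mul_mon h2 ν

theorem Red.of_mem {K : Ideal R} {ν : Fin D → ℕ} (h : mon y ν ∈ K) : Red k y ω K ν :=
  ⟨_, h, by simp⟩

theorem Red.mono {K K' : Ideal R} {ν : Fin D → ℕ} (h : Red k y ω K ν) (hK : K ≤ K') :
    Red k y ω K' ν := by
  obtain ⟨f, hf, h1⟩ := h
  exact ⟨f, hK hf, h1⟩

theorem Red.up {K : Ideal R} {ν ν' : Fin D → ℕ} (h : Red k y ω K ν) (hν : ν ≤ ν') :
    Red k y ω K ν' := by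
  obtain ⟨ρ, rfl⟩ := exists_add_of_le hν
  have := h.mul (Red.of_mem (K := ⊤) (ν := ρ) Submodule.mem_top)
  rwa [Ideal.mul_top] at this

theorem Red.multiset {K : Ideal R} (s : Multiset (Fin D → ℕ)) (h : ∀ g ∈ s, Red k y ω K g) :
    Red k y ω (K ^ Multiset.card s) s.sum := by
  induction s using Multiset.induction_on with
  | empty => exact Red.of_mem (by simp)
  | cons g s ih =>
    rw [Multiset.card_cons, Multiset.sum_cons, pow_succ']
    exact (h g (Multiset.mem_cons_self _ _)).mul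
      (ih fun g' hg' => h g' (Multiset.mem_cons_of_mem hg'))

theorem Red.of_Cl {K : Ideal R} {N n : ℕ} {ν : Fin D → ℕ}
    (h : Cl (Red k y ω K) N (n + (N + 1) ^ D) ν) : Red k y ω (K ^ n) ν := by
  obtain ⟨s, h1, h2, h3⟩ := Cl_floor h
  exact ((Red.multiset s h1).up h3).mono (Ideal.pow_le_pow_right (by omega))

theorem mon_mem_pow (y : Fin D → R) (ν : Fin D → ℕ) {n : ℕ} (hn : n ≤ ∑ j, ν j) :
    mon y ν ∈ Ideal.span (Set.range y) ^ n := by
  refine Ideal.pow_le_pow_right hn ?_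
  rw [← prod_pow_eq_pow_sum]
  exact Ideal.prod_mem_prod fun j _ => Ideal.pow_mem_pow (Ideal.subset_span (Set.mem_range_self j)) _

theorem approx_pow
    (hk : ∀ f : R, ∃ a : k, f - algebraMap k R a ∈ Ideal.span (Set.range y)) (j : ℕ) :
    ∀ f ∈ Ideal.span (Set.range y) ^ j, ∃ a ∈ Submodule.span k (Set.range (mon y)),
      a ∈ Ideal.span (Set.range y) ^ j ∧ f - a ∈ Ideal.span (Set.range y) ^ (j + 1) := by
  induction j with
  | zero =>
    intro f _
    obtain ⟨a, ha⟩ := hk f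
    refine ⟨algebraMap k R a, ?_, by simp, by simpa using ha⟩
    rw [Algebra.algebraMap_eq_smul_one]
    exact Submodule.smul_mem _ _ (Submodule.subset_span ⟨0, mon_zero y⟩)
  | succ j ih =>
    intro f hf
    rw [pow_succ] at hf
    refine Submodule.mul_induction_on hf ?_ ?_
    · intro g hg h hh
      obtain ⟨r, rfl⟩ := Ideal.mem_span_range_iff_exists_fun.mp hh
      choose a ha1 ha2 ha3 using fun t => ih (g * r t) (Ideal.mul_mem_right _ _ hg)
      have hy : ∀ t, y t ∈ Ideal.span (Set.range y) := fun t => Ideal.subset_span ⟨t, rfl⟩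
      refine ⟨∑ t, a t * y t, Submodule.sum_mem _ fun t _ => ?_, Ideal.sum_mem _ fun t _ => ?_, ?_⟩
      · have : ∀ b ∈ Submodule.span k (Set.range (mon y)),
            b * y t ∈ Submodule.span k (Set.range (mon y)) := by
          intro b hb
          induction hb using Submodule.span_induction with
          | mem r hr =>
            obtain ⟨κ, rfl⟩ := hr
            exact Submodule.subset_span ⟨κ + Pi.single t 1, by rw [mon_add, mon_single, pow_one]⟩
          | zero => simp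
          | add a b _ _ ha hb => rw [add_mul]; exact add_mem ha hb
          | smul c a _ ha => rw [smul_mul_assoc]; exact Submodule.smul_mem _ c ha
        exact this _ (ha1 t)
      · rw [pow_succ]; exact Ideal.mul_mem_mul (ha2 t) (hy t)
      · rw [mul_sum, ← sum_sub_distrib]
        refine Ideal.sum_mem _ fun t _ => ?_
        rw [← mul_assoc, ← sub_mul, pow_succ]
        exact Ideal.mul_mem_mul (ha3 t) (hy t)
    · rintro f₁ f₂ ⟨a₁, h1, h2, h3⟩ ⟨a₂, h4, h5, h6⟩
      refine ⟨a₁ + a₂, add_mem h1 h4, add_mem h2 h5, ?_⟩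
      rw [add_sub_add_comm]
      exact add_mem h3 h6

theorem approx
    (hk : ∀ f : R, ∃ a : k, f - algebraMap k R a ∈ Ideal.span (Set.range y)) (j : ℕ) (f : R) :
    ∃ a ∈ Submodule.span k (Set.range (mon y)), f - a ∈ Ideal.span (Set.range y) ^ j := by
  induction j with
  | zero => exact ⟨0, zero_mem _, by simp⟩
  | succ j ih =>
    obtain ⟨a, h1, h2⟩ := ih
    obtain ⟨b, h3, -, h4⟩ := approx_pow hk j _ h2
    exact ⟨a + b, add_mem h1 h3, by rwa [← sub_sub]⟩

theorem span_quot_eq_top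
    (hk : ∀ f : R, ∃ a : k, f - algebraMap k R a ∈ Ideal.span (Set.range y))
    {K : Ideal R} {M : ℕ} (hM : Ideal.span (Set.range y) ^ M ≤ K) (W : Submodule k (R ⧸ K))
    (hW : ∀ ν, Ideal.Quotient.mk K (mon y ν) ∈ W) : W = ⊤ := by
  rw [eq_top_iff]
  rintro q -
  obtain ⟨f, rfl⟩ := Ideal.Quotient.mk_surjective q
  obtain ⟨a, h1, h2⟩ := approx hk M f
  rw [(Ideal.Quotient.mk_eq_mk_iff_sub_mem f a).mpr (hM h2)]
  have : Submodule.span k (Set.range (mon y)) ≤ W.comap (Ideal.Quotient.mkₐ k K).toLinearMap := by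
    rw [Submodule.span_le]
    rintro _ ⟨ν, rfl⟩
    exact hW ν
  exact this h1

theorem finrank_le_card
    (hk : ∀ f : R, ∃ a : k, f - algebraMap k R a ∈ Ideal.span (Set.range y))
    {K K' : Ideal R} {M i : ℕ} (hM : Ideal.span (Set.range y) ^ M ≤ K) (hK : K ≤ K')
    (hi : ∀ s : Fin D, s.val < i → y s ∈ K') (S : Finset (Fin D → ℕ))
    (hS : ∀ ν, (∀ s : Fin D, s.val < i → ν s = 0) → ¬ Red k y ω K ν → ν ∈ S) :
    Module.Finite k (R ⧸ K') ∧ Module.finrank k (R ⧸ K') ≤ S.card := by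
  classical
  let v : (Fin D → ℕ) → R ⧸ K' := fun ν => Ideal.Quotient.mk K' (mon y ν)
  let W : Submodule k (R ⧸ K') := Submodule.span k (S.image v : Set (R ⧸ K'))
  have key : ∀ m ν, (∑ j, ω j) * M < wt ω ν + m → v ν ∈ W := by
    intro m
    induction m with
    | zero =>
      intro ν hν
      have h1 := wt_le ω ν
      have h2 : M ≤ ∑ j, ν j := by
        by_contra hc
        have := Nat.mul_le_mul_left (∑ j, ω j) (not_le.mp hc).le
        omega
      have : v ν = 0 := Ideal.Quotient.eq_zero_iff_mem.mpr (hK (hM (mon_mem_pow y ν h2)))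
      rw [this]; exact zero_mem _
    | succ m ih =>
      intro ν hν
      by_cases h0 : ∀ s : Fin D, s.val < i → ν s = 0
      · by_cases hr : Red k y ω K ν
        · obtain ⟨f, hf, h1⟩ := hr
          have h2 : Hi k y ω (wt ω ν) ≤ W.comap (Ideal.Quotient.mkₐ k K').toLinearMap := by
            rw [Hi, Submodule.span_le]
            rintro _ ⟨κ, hκ, rfl⟩
            exact ih κ (by omega)
          have h3 := h2 h1
          have h4 : Ideal.Quotient.mk K' (mon y ν - f) = v ν := by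
            rw [map_sub, Ideal.Quotient.eq_zero_iff_mem.mpr (hK hf), sub_zero]
          rw [← h4]
          exact h3
        · exact Submodule.subset_span (mem_coe.mpr (mem_image_of_mem v (hS ν h0 hr)))
      · push Not at h0
        obtain ⟨s, hs, hs'⟩ := h0
        have : v ν = 0 := Ideal.Quotient.eq_zero_iff_mem.mpr <|
          K'.mem_of_dvd ((dvd_pow_self (y s) hs').trans (dvd_prod_of_mem _ (mem_univ s))) (hi s hs)
        rw [this]; exact zero_mem _
  have hW : W = ⊤ := span_quot_eq_top hk (hM.trans hK) W fun ν =>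
    key ((∑ j, ω j) * M + 1) ν (by omega)
  have hfin : Module.Finite k (R ⧸ K') := ⟨⟨S.image v, hW⟩⟩
  refine ⟨hfin, ?_⟩
  rw [← finrank_top, ← hW]
  exact (finrank_span_finset_le_card _).trans card_image_le

end Pool.Agent.P.MP_eae75b_ag
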