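import Pool.Agent.P.MP_eae75b_ag.Comb

/-! The urn inequality for weights that are antitone only among multisets with equal support,
and the exchange of a zero entry for the top entry. -/

namespace Pool.Agent.P.MP_eae75b_ag

open Finset

def AntiS (φ : Multiset ℕ → ℕ) : Prop :=
  ∀ M M' : Multiset ℕ, Multiset.card M = Multiset.card M' → Dom M M' → (∀ x, x ∈ M ↔ x ∈ M') →
    φ M' ≤ φ M

theorem sup_congr {M M' : Multiset ℕ} (h : ∀ x, x ∈ M ↔ x ∈ M') : M.sup = M'.sup :=
  le_antisymm (Multiset.sup_mono fun x hx => (h x).mp hx)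
    (Multiset.sup_mono fun x hx => (h x).mpr hx)

theorem sup_mem {M : Multiset ℕ} (h : M ≠ 0) : M.sup ∈ M := by
  induction M using Multiset.induction_on with
  | empty => exact absurd rfl h
  | cons a M ih =>
    rw [Multiset.sup_cons, Multiset.mem_cons]
    by_cases h0 : M = 0
    · subst h0; simp
    · rcases le_total a M.sup with h1 | h1
      · right; rw [sup_eq_right.mpr h1]; exact ih h0
      · left; exact sup_eq_left.mpr h1

theorem mem_pad {D : ℕ} {M : Multiset ℕ} (h : M ≠ 0 ∨ D ≤ Multiset.card M) {x : ℕ} :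
    x ∈ pad D M ↔ x ∈ M := by
  rw [pad, Multiset.mem_add]
  constructor
  · rintro (h1 | h1)
    · exact h1
    · rcases h with h | h
      · rw [Multiset.eq_of_mem_replicate h1]; exact sup_mem h
      · rw [Nat.sub_eq_zero_of_le h] at h1; simp at h1
  · exact Or.inl

theorem polyaS (B : ℕ) : ∀ (D : ℕ) (φ : Multiset ℕ → ℕ), AntiS φ →
    ∑ j ∈ range (D + 1), Nat.stirlingFirst D j * tsum B j (fun M => φ (pad D M))
      ≤ D.factorial * ∑ M ∈ symF B D, φ M := by
  intro D
  induction D with
  | zero =>
    intro φ _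
    have : symF B 0 = {0} := by
      ext M; simp only [mem_symF, Multiset.card_eq_zero, mem_singleton]
      constructor
      · exact fun h => h.1
      · rintro rfl; simp
    simp [this, tsum, tup, mset, pad]
  | succ D ih =>
    intro φ hφ
    set φN : Multiset ℕ → ℕ := fun M => ∑ a ∈ range B, φ (a ::ₘ M) with hN
    set φK : Multiset ℕ → ℕ := fun M => φ (M.sup ::ₘ M) with hK
    have hNa : AntiS φN := fun M M' hc hd hs =>
      sum_le_sum fun a _ => hφ _ _ (by simp [hc]) (hd.cons le_rfl) (fun x => by simp [hs x])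
    have hKa : AntiS φK := fun M M' hc hd hs => hφ _ _ (by simp [hc]) (hd.cons hd.sup_le)
      (fun x => by simp [hs x, sup_congr hs])
    have i1 := ih φN hNa
    have i2 := ih φK hKa
    set E : ℕ → ℕ := fun j => tsum B j (fun M => φ (pad (D + 1) M)) with hE
    have e1 : ∀ j ∈ range (D + 1), Nat.stirlingFirst D j * E (j + 1) ≤
        Nat.stirlingFirst D j * tsum B j (fun M => φN (pad D M)) := by
      intro j hj
      have hj' := mem_range.mp hj
      by_cases h0 : j = 0 ∧ 0 < D
      · obtain ⟨rfl, h1⟩ := h0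
        obtain ⟨D', rfl⟩ : ∃ D', D = D' + 1 := ⟨D - 1, by omega⟩
        simp
      refine Nat.mul_le_mul_left _ ?_
      simp only [hE]
      rw [tsum_succ]
      refine tsum_mono fun M hM => sum_le_sum fun a _ => hφ _ _ ?_ (dom_cons_pad D a M) ?_
      · rw [Multiset.card_cons, card_pad (by omega), card_pad (by simp; omega)]
      · intro x
        rw [mem_pad (Or.inl (Multiset.cons_ne_zero)), Multiset.mem_cons, Multiset.mem_cons,
          mem_pad]
        by_cases hM0 : M = 0
        · right
          subst hM0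
          simp only [Multiset.card_zero] at hM ⊢
          omega
        · exact Or.inl hM0
    have e2 : ∀ j ∈ range (D + 1), Nat.stirlingFirst D j * E j ≤
        Nat.stirlingFirst D j * tsum B j (fun M => φK (pad D M)) := by
      intro j hj
      refine Nat.mul_le_mul_left _ (tsum_mono fun M hM => ?_)
      have hj' := mem_range.mp hj
      rw [pad_succ (by omega)]
    have e3 : ∑ j ∈ range (D + 1), Nat.stirlingFirst D (j + 1) * E (j + 1) ≤
        ∑ j ∈ range (D + 1), Nat.stirlingFirst D j * E j := by
      have a1 := sum_range_succ' (fun j => Nat.stirlingFirst D j * E j) (D + 1)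
      have a2 := sum_range_succ (fun j => Nat.stirlingFirst D j * E j) (D + 1)
      rw [Nat.stirlingFirst_eq_zero_of_lt (Nat.lt_succ_self D)] at a2
      omega
    have e4 : ∀ M ∈ symF B D, φN M + D * φK M ≤
        ∑ a ∈ range B, (M.count a + 1) * φ (a ::ₘ M) := by
      intro M hM
      rw [mem_symF] at hM
      have : D * φK M = ∑ a ∈ range B, M.count a * φK M := by
        rw [← sum_mul, Multiset.sum_count_eq_card (fun a ha => mem_range.mpr (hM.2 a ha)), hM.1]
      rw [this, hN, ← sum_add_distrib]
      refine sum_le_sum fun a _ => ?_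
      by_cases ha : a ∈ M
      · have : φK M ≤ φ (a ::ₘ M) := hφ _ _ (by simp) ((Dom.refl M).cons (Multiset.le_sup ha))
          (fun x => by
            have h1 := sup_mem (M := M) (fun h => by simp [h] at ha)
            simp only [Multiset.mem_cons]
            constructor
            · rintro (rfl | h)
              · exact Or.inr ha
              · exact Or.inr h
            · rintro (rfl | h)
              · exact Or.inr h1
              · exact Or.inr h)
        nlinarith
      · simp [Multiset.count_eq_zero.mpr ha]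
    have e5 := sum_le_sum e4
    rw [sum_add_distrib, ← mul_sum, ← sum_symF_succ] at e5
    have e6 := sum_le_sum e1
    have e7 := sum_le_sum e2
    calc ∑ j ∈ range (D + 1 + 1), Nat.stirlingFirst (D + 1) j * E j
        = D * ∑ j ∈ range (D + 1), Nat.stirlingFirst D (j + 1) * E (j + 1)
          + ∑ j ∈ range (D + 1), Nat.stirlingFirst D j * E (j + 1) := by
          rw [sum_range_succ', Nat.stirlingFirst_succ_zero, zero_mul, add_zero, mul_sum,
            ← sum_add_distrib]
          refine sum_congr rfl fun j _ => ?_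
          rw [Nat.stirlingFirst_succ_succ]; ring
      _ ≤ D * (D.factorial * ∑ M ∈ symF B D, φK M) + D.factorial * ∑ M ∈ symF B D, φN M :=
          add_le_add (Nat.mul_le_mul_left _ (e3.trans (e7.trans i2))) (e6.trans i1)
      _ = D.factorial * (∑ M ∈ symF B D, φN M + D * ∑ M ∈ symF B D, φK M) := by ring
      _ ≤ D.factorial * ((D + 1) * ∑ M ∈ symF B (D + 1), φ M) := Nat.mul_le_mul_left _ e5
      _ = _ := by rw [Nat.factorial_succ]; ring

theorem tsum_add (B j : ℕ) (g g' : Multiset ℕ → ℕ) :
    tsum B j (fun M => g M + g' M) = tsum B j g + tsum B j g' := sum_add_distrib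

theorem tsum_sum (B j : ℕ) (s : Finset ℕ) (g : ℕ → Multiset ℕ → ℕ) :
    tsum B j (fun M => ∑ a ∈ s, g a M) = ∑ a ∈ s, tsum B j (g a) := sum_comm

theorem mem_mset {j : ℕ} {f : Fin j → ℕ} {x : ℕ} : x ∈ mset f ↔ ∃ s, f s = x := by
  simp [mset, List.mem_ofFn]

theorem tsum_mono' {B j : ℕ} {g g' : Multiset ℕ → ℕ}
    (h : ∀ M, Multiset.card M = j → (∀ a ∈ M, a < B) → g M ≤ g' M) :
    tsum B j g ≤ tsum B j g' := by
  refine sum_le_sum fun f hf => h _ (card_mset f) fun a ha => ?_
  obtain ⟨s, rfl⟩ := mem_mset.mp ha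
  simp only [tup, Fintype.mem_piFinset, mem_range] at hf
  exact hf s

/-- Tuples with entries at most `t` that contain `c`, weighted after one `c` is erased. -/
def ers (t c j : ℕ) (g : Multiset ℕ → ℕ) : ℕ :=
  tsum (t + 1) j fun M => if c ∈ M then g (M.erase c) else 0

theorem ers_mono {t c j : ℕ} {g g' : Multiset ℕ → ℕ} (h : ∀ M, g M ≤ g' M) :
    ers t c j g ≤ ers t c j g' := by
  refine tsum_mono fun M _ => ?_
  split_ifs
  · exact h _
  · exact le_rfl

theorem ers_succ {t c : ℕ} (hc : c ≤ t) (j : ℕ) (g : Multiset ℕ → ℕ) :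
    ers t c (j + 1) g + ers t c j (fun M => g (c ::ₘ M)) =
      tsum (t + 1) j g + ∑ a ∈ range (t + 1), ers t c j fun M => g (a ::ₘ M) := by
  unfold ers
  rw [tsum_succ, ← tsum_sum, ← tsum_add, ← tsum_add]
  congr 1
  funext M
  have hm : c ∈ range (t + 1) := mem_range.mpr (by omega)
  rw [← add_sum_erase _ _ hm, ← add_sum_erase _ _ hm]
  have : ∑ a ∈ (range (t + 1)).erase c, (if c ∈ a ::ₘ M then g ((a ::ₘ M).erase c) else 0) =
      ∑ a ∈ (range (t + 1)).erase c, (if c ∈ M then g (a ::ₘ M.erase c) else 0) := by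
    refine sum_congr rfl fun a ha => ?_
    have hne : a ≠ c := (mem_erase.mp ha).1
    rw [Multiset.erase_cons_tail _ hne]
    simp [hne.symm]
  rw [this]
  simp
  omega

theorem ers_le (t : ℕ) : ∀ (j : ℕ) (g : Multiset ℕ → ℕ), (∀ M, g (t ::ₘ M) ≤ g (0 ::ₘ M)) →
    ers t 0 j g ≤ ers t t j g := by
  intro j
  induction j with
  | zero => intro g _; simp [ers, tsum, mset]
  | succ j ih =>
    intro g hg
    have h1 := ers_succ (Nat.zero_le t) j g
    have h2 := ers_succ (le_refl t) j g
    have h3 : ∀ a, ers t 0 j (fun M => g (a ::ₘ M)) ≤ ers t t j fun M => g (a ::ₘ M) :=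
      fun a => ih _ fun M => by rw [Multiset.cons_swap a t, Multiset.cons_swap a 0]; exact hg _
    have h4 : ers t 0 j (fun M => g (t ::ₘ M)) ≤ ers t 0 j fun M => g (0 ::ₘ M) := ers_mono hg
    rw [sum_range_succ] at h1 h2
    have h5 := sum_le_sum fun a (_ : a ∈ range t) => h3 a
    omega

/-- Number of two-valued tuples of length `j` with at least `k` zeros. -/
def cnt : ℕ → ℕ → ℕ
  | 0, k => if k = 0 then 1 else 0
  | j + 1, k => cnt j k + cnt j (k - 1)

theorem cnt_anti : ∀ j k k', k ≤ k' → cnt j k' ≤ cnt j k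
  | 0, k, k', h => by simp only [cnt]; split_ifs <;> omega
  | j + 1, k, k', h => add_le_add (cnt_anti j _ _ h) (cnt_anti j _ _ (by omega))

theorem tsum_two (B t : ℕ) (ht : t ≠ 0) : ∀ j k : ℕ,
    tsum B j (fun M => if (∀ a ∈ M, a = 0 ∨ a = t) ∧ k ≤ M.count 0 then 1 else 0) ≤ cnt j k := by
  intro j
  induction j with
  | zero => intro k; simp [tsum, tup, mset, cnt]
  | succ j ih =>
    intro k
    rw [tsum_succ, cnt]
    refine le_trans ?_ (add_le_add (ih k) (ih (k - 1)))
    rw [← tsum_add]
    refine tsum_mono fun M _ => ?_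
    refine le_trans (sum_le_sum_of_ne_zero (t := {t, 0}) fun a _ ha => ?_) ?_
    · have h1 := (ite_ne_right_iff.mp ha).1.1 a (Multiset.mem_cons_self _ _)
      simp only [mem_insert, mem_singleton]
      tauto
    · rw [sum_pair ht]
      refine add_le_add ?_ ?_
      · split_ifs with h1 h2
        · exact le_rfl
        · refine absurd ⟨fun a ha => h1.1 a (Multiset.mem_cons_of_mem ha), ?_⟩ h2
          have := h1.2
          rwa [Multiset.count_cons_of_ne ht.symm] at this
        · exact Nat.zero_le _
        · exact le_rfl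
      · split_ifs with h1 h2
        · exact le_rfl
        · refine absurd ⟨fun a ha => h1.1 a (Multiset.mem_cons_of_mem ha), ?_⟩ h2
          have := h1.2
          rw [Multiset.count_cons_self] at this
          omega
        · exact Nat.zero_le _
        · exact le_rfl

def stc (D k : ℕ) : ℕ := ∑ j ∈ range (D + 1), Nat.stirlingFirst D j * cnt j k

theorem stc_succ (D k : ℕ) : stc (D + 1) k = (D + 1) * stc D k + stc D (k - 1) := by
  have a1 := sum_range_succ' (fun j => Nat.stirlingFirst D j * cnt j k) (D + 1)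
  have a2 := sum_range_succ (fun j => Nat.stirlingFirst D j * cnt j k) (D + 1)
  rw [Nat.stirlingFirst_eq_zero_of_lt (Nat.lt_succ_self D)] at a2
  have a3 : D * (Nat.stirlingFirst D 0 * cnt 0 k) = 0 := by
    cases D <;> simp
  have a4 : stc (D + 1) k = D * ∑ j ∈ range (D + 1), Nat.stirlingFirst D (j + 1) * cnt (j + 1) k
      + (stc D k + stc D (k - 1)) := by
    unfold stc
    rw [sum_range_succ', Nat.stirlingFirst_succ_zero, zero_mul, add_zero, mul_sum,
      ← sum_add_distrib, ← sum_add_distrib]
    refine sum_congr rfl fun j _ => ?_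
    rw [Nat.stirlingFirst_succ_succ]
    simp only [cnt]
    ring
  have a5 : stc D k = ∑ j ∈ range (D + 1), Nat.stirlingFirst D (j + 1) * cnt (j + 1) k +
      Nat.stirlingFirst D 0 * cnt 0 k := by
    unfold stc
    omega
  have a6 : D * stc D k =
      D * ∑ j ∈ range (D + 1), Nat.stirlingFirst D (j + 1) * cnt (j + 1) k := by
    rw [a5, mul_add, a3, add_zero]
  rw [a4, ← a6]
  ring

theorem stc_anti (D : ℕ) {k k' : ℕ} (h : k ≤ k') : stc D k' ≤ stc D k :=
  sum_le_sum fun j _ => Nat.mul_le_mul_left _ (cnt_anti j _ _ h)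

theorem stc_zero : ∀ D, stc D 0 = (D + 1).factorial
  | 0 => by simp [stc, cnt]
  | D + 1 => by rw [stc_succ, stc_zero D, Nat.factorial_succ (D + 1)]; ring

theorem stc_one : ∀ D, stc D 1 = D * D.factorial
  | 0 => by simp [stc, cnt]
  | D + 1 => by rw [stc_succ, stc_zero D, stc_one D, Nat.factorial_succ D]; ring

theorem stc_big : ∀ D k, D < k → stc D k = 0
  | 0, k, h => by simp [stc, cnt]; omega
  | D + 1, k, h => by rw [stc_succ, stc_big D k (by omega), stc_big D (k - 1) (by omega)]; simp

theorem stc_self : ∀ D, stc D D = 1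
  | 0 => by simp [stc, cnt]
  | D + 1 => by rw [stc_succ, stc_big D (D + 1) (by omega)]; simpa using stc_self D

theorem stc_le : ∀ D k, 2 ≤ k → k ≤ D → stc D k ≤ D.factorial * (D - k) + 1
  | 0, k, h, h' => by omega
  | D + 1, k, h, h' => by
    rcases h'.eq_or_lt with h1 | h1
    · subst h1; rw [stc_self]; omega
    · have h2 := stc_le D k h (by omega)
      have h3 : stc D (k - 1) ≤ D * D.factorial := (stc_anti D (by omega)).trans (stc_one D).le
      have h4 := Nat.self_le_factorial D
      obtain ⟨r, rfl⟩ : ∃ r, D = k + r := ⟨D - k, by omega⟩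
      rw [stc_succ, Nat.factorial_succ, show k + r + 1 - k = r + 1 by omega]
      rw [show k + r - k = r by omega] at h2
      have h5 := Nat.mul_le_mul_left (k + r + 1) h2
      nlinarith

end Pool.Agent.P.MP_eae75b_ag
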