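import Pool.Agent.P.MP_eae75b_ag.StA

/-! The urn inequality with a gain on every level that is neither full nor empty. -/

namespace Pool.Agent.P.MP_eae75b_ag

open Finset

def uu (D a t : ℕ) : Multiset ℕ := Multiset.replicate a 0 + Multiset.replicate (D - a) t

theorem card_uu {D a : ℕ} (h : a ≤ D) (t : ℕ) : Multiset.card (uu D a t) = D := by
  simp [uu]; omega

theorem dom_uu {D a a' : ℕ} (h : a ≤ a') (h' : a' ≤ D) (t : ℕ) : Dom (uu D a' t) (uu D a t) := by
  obtain ⟨r, rfl⟩ := Nat.exists_eq_add_of_le h
  rw [uu, uu, show D - a = r + (D - (a + r)) by omega, Multiset.replicate_add,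
    Multiset.replicate_add, add_assoc]
  exact (Dom.refl _).add ((Dom.replicate r (Nat.zero_le t)).add (Dom.refl _))

theorem two_val {t : ℕ} (ht : t ≠ 0) (M : Multiset ℕ) (h : ∀ a ∈ M, a = 0 ∨ a = t) :
    M = uu (Multiset.card M) (M.count 0) t := by
  induction M using Multiset.induction_on with
  | empty => simp [uu]
  | cons a M ih =>
    have h1 := ih fun b hb => h b (Multiset.mem_cons_of_mem hb)
    have h2 := Multiset.count_le_card 0 M
    rcases h a (Multiset.mem_cons_self _ _) with rfl | rfl
    · rw [uu, Multiset.count_cons_self, Multiset.card_cons, Nat.add_sub_add_right,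
        Multiset.replicate_succ, Multiset.cons_add, ← uu, ← h1]
    · rw [uu, Multiset.count_cons_of_ne ht.symm, Multiset.card_cons,
        show Multiset.card M + 1 - M.count 0 = Multiset.card M - M.count 0 + 1 by omega,
        Multiset.replicate_succ, Multiset.add_cons, ← uu, ← h1]

theorem sup_add_rep {M : Multiset ℕ} {t : ℕ} (h : ∀ a ∈ M, a ≤ t) (r : ℕ) :
    (M + Multiset.replicate (r + 1) t).sup = t := by
  apply le_antisymm
  · rw [Multiset.sup_le]
    intro a ha
    rcases Multiset.mem_add.mp ha with h1 | h1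
    · exact h a h1
    · exact (Multiset.eq_of_mem_replicate h1).le
  · exact Multiset.le_sup (by simp)

theorem sup_uu {D a : ℕ} (h : a < D) (t : ℕ) : (uu D a t).sup = t := by
  rw [uu, show D - a = (D - a - 1) + 1 by omega]
  exact sup_add_rep (fun b hb => by rw [Multiset.eq_of_mem_replicate hb]; exact Nat.zero_le _) _

def EE (B D : ℕ) (φ : Multiset ℕ → ℕ) (j : ℕ) : ℕ :=
  ∑ t ∈ range B, ers t 0 j fun M => φ (M + Multiset.replicate (D - j + 1) t)

theorem top_le (B D j : ℕ) (φ : Multiset ℕ → ℕ) :
    ∑ t ∈ range B, ers t t j (fun M => φ (M + Multiset.replicate (D - j + 1) t)) ≤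
      tsum B j fun M => φ (pad D M) := by
  have h1 : ∀ t ∈ range B, ers t t j (fun M => φ (M + Multiset.replicate (D - j + 1) t)) ≤
      tsum B j fun M => if t = M.sup then φ (pad D M) else 0 := by
    intro t ht
    have h2 : ers t t j (fun M => φ (M + Multiset.replicate (D - j + 1) t)) ≤
        tsum (t + 1) j fun M => if t = M.sup then φ (pad D M) else 0 := by
      refine tsum_mono' fun M hM hb => ?_
      split_ifs with h3 h4
      · refine le_of_eq ?_
        beta_reduce
        rw [pad, hM, ← h4, Multiset.replicate_succ, Multiset.add_cons, ← Multiset.cons_add,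
          Multiset.cons_erase h3]
      · refine absurd (le_antisymm (Multiset.le_sup h3) ?_) h4
        rw [Multiset.sup_le]
        intro a ha
        have := hb a ha
        omega
      · exact Nat.zero_le _
      · exact le_rfl
    refine h2.trans (sum_le_sum_of_subset ?_)
    refine Fintype.piFinset_subset _ _ fun _ => range_subset_range.mpr ?_
    have := mem_range.mp ht
    omega
  refine (sum_le_sum h1).trans ?_
  rw [← tsum_sum]
  refine tsum_mono fun M _ => ?_
  rw [sum_ite_eq']
  split_ifs
  · exact le_rfl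
  · exact Nat.zero_le _

theorem level (B D : ℕ) (φ : Multiset ℕ → ℕ) (hφ : AntiW φ) (h1 : ∀ M, φ M ≤ 1) (hD : 0 < D)
    (Lv : Finset ℕ) (hL : ∀ t ∈ Lv, t < B ∧ φ (uu D 0 t) = 0 ∧ φ (uu D (D - 1) t) = 1) :
    ∑ j ∈ range (D + 1), Nat.stirlingFirst D j * EE B D φ j + D.factorial * Lv.card ≤
      D.factorial * ∑ M ∈ symF B D, φ M + Lv.card := by
  classical
  have hex : ∀ t, ∃ a, t ∈ Lv → 1 ≤ a ∧ a < D ∧ φ (uu D a t) = 1 ∧ φ (uu D (a - 1) t) = 0 := by
    intro t
    by_cases ht : t ∈ Lv
    · have h2 : ∃ a, φ (uu D a t) = 1 := ⟨_, (hL t ht).2.2⟩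
      have h3 := Nat.find_spec h2
      have h4 : Nat.find h2 ≤ D - 1 := Nat.find_min' h2 (hL t ht).2.2
      have h5 : Nat.find h2 ≠ 0 := by
        intro h
        rw [h, (hL t ht).2.1] at h3
        omega
      have h6 := Nat.find_min h2 (m := Nat.find h2 - 1) (by omega)
      have h7 := h1 (uu D (Nat.find h2 - 1) t)
      exact ⟨Nat.find h2, fun _ => ⟨by omega, by omega, h3, by omega⟩⟩
    · exact ⟨0, fun h => absurd h ht⟩
  choose a0 ha0 using hex
  have ht0 : ∀ t ∈ Lv, t ≠ 0 := by
    rintro t ht rfl
    obtain ⟨-, h2, h3⟩ := hL 0 ht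
    have : uu D (D - 1) 0 = uu D 0 0 := by
      rw [uu, uu, ← Multiset.replicate_add, ← Multiset.replicate_add]
      congr 1
      omega
    rw [this] at h3
    omega
  let Z : Multiset ℕ → Prop := fun M => M.sup ∈ Lv ∧ ∀ a ∈ M, a = 0 ∨ a = M.sup
  let φo : Multiset ℕ → ℕ := fun M => if Z M then 0 else φ M
  let φz : Multiset ℕ → ℕ := fun M => if Z M then φ M else 0
  have hsplit : ∀ M, φ M = φo M + φz M := by
    intro M
    simp only [φo, φz]
    split_ifs <;> simp
  have hE : ∀ j, EE B D φ j = EE B D φo j + EE B D φz j := by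
    intro j
    unfold EE ers
    rw [← sum_add_distrib]
    refine sum_congr rfl fun t _ => ?_
    rw [← tsum_add]
    congr 1
    funext M
    split_ifs
    · exact hsplit _
    · rfl
  have ho : AntiS φo := by
    intro M M' hc hd hs
    have : Z M ↔ Z M' := by
      simp only [Z, sup_congr hs, hs]
    simp only [φo, this]
    split_ifs
    · exact le_rfl
    · exact hφ _ _ hc hd
  have e1 : ∀ j, EE B D φo j ≤ tsum B j fun M => φo (pad D M) := by
    intro j
    refine le_trans (sum_le_sum fun t _ => ers_le t j _ fun M => ?_) (top_le B D j φo)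
    have hs : (t ::ₘ M + Multiset.replicate (D - j + 1) t).sup =
        (0 ::ₘ M + Multiset.replicate (D - j + 1) t).sup := by
      rw [Multiset.cons_add, Multiset.cons_add, Multiset.sup_cons, Multiset.sup_cons,
        sup_eq_right.mpr (Multiset.le_sup (by simp)), sup_eq_right.mpr (Nat.zero_le _)]
    have : Z (0 ::ₘ M + Multiset.replicate (D - j + 1) t) →
        Z (t ::ₘ M + Multiset.replicate (D - j + 1) t) := by
      rintro ⟨z1, z2⟩
      refine ⟨by rw [hs]; exact z1, fun a ha => ?_⟩
      rw [hs]
      refine z2 a ?_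
      rw [Multiset.cons_add, Multiset.mem_cons] at ha ⊢
      rcases ha with rfl | ha
      · right; simp
      · exact Or.inr ha
    simp only [φo]
    split_ifs with z1 z2 z2
    · exact le_rfl
    · exact Nat.zero_le _
    · exact absurd (this z2) z1
    · exact hφ _ _ (by simp) (((Dom.refl M).cons (Nat.zero_le t)).add (Dom.refl _))
  have e2 := polyaS B D φo ho
  have e3 : ∀ j ≤ D, EE B D φz j ≤ ∑ t ∈ Lv, cnt j (a0 t + 1) := by
    intro j hj
    have b1 : ∀ t ∈ range B, ers t 0 j (fun M => φz (M + Multiset.replicate (D - j + 1) t)) ≤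
        if t ∈ Lv then cnt j (a0 t + 1) else 0 := by
      intro t _
      have b2 : ∀ M : Multiset ℕ, (∀ a ∈ M, a < t + 1) →
          (M.erase 0 + Multiset.replicate (D - j + 1) t).sup = t := fun M hb =>
        sup_add_rep (fun a ha => Nat.lt_succ_iff.mp (hb a (Multiset.mem_of_mem_erase ha))) _
      split_ifs with ht
      · refine le_trans (tsum_mono' fun M hM hb => ?_) (tsum_two (t + 1) t (ht0 t ht) j (a0 t + 1))
        by_cases h0 : 0 ∈ M
        swap
        · simp [h0]
        rw [if_pos h0]
        simp only [φz]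
        by_cases hz : Z (M.erase 0 + Multiset.replicate (D - j + 1) t)
        swap
        · rw [if_neg hz]; exact Nat.zero_le _
        rw [if_pos hz]
        have b3 := hz.2
        rw [b2 M hb] at b3
        split_ifs with b4
        · exact h1 _
        · have b5 : ∀ a ∈ M, a = 0 ∨ a = t := by
            intro a ha
            by_cases h : a = 0
            · exact Or.inl h
            · exact b3 a (Multiset.mem_add.mpr (Or.inl ((Multiset.mem_erase_of_ne h).mpr ha)))
          have b6 : M.count 0 ≤ a0 t := by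
            by_contra hc
            exact b4 ⟨b5, by omega⟩
          have b7 := two_val (ht0 t ht) _ b3
          have b8 : Multiset.card (M.erase 0 + Multiset.replicate (D - j + 1) t) = D := by
            have := Multiset.card_pos_iff_exists_mem.mpr ⟨0, h0⟩
            rw [Multiset.card_add, Multiset.card_erase_of_mem h0, Multiset.card_replicate,
              Nat.pred_eq_sub_one]
            omega
          have b9 : (M.erase 0 + Multiset.replicate (D - j + 1) t).count 0 ≤ a0 t - 1 := by
            rw [Multiset.count_add, Multiset.count_erase_self, Multiset.count_replicate,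
              if_neg (ht0 t ht)]
            omega
          obtain ⟨c1, c2, -, c4⟩ := ha0 t ht
          rw [b8] at b7
          have c5 := hφ _ _ (by rw [card_uu (by omega), card_uu (b9.trans (by omega))])
            (dom_uu b9 (show a0 t - 1 ≤ D by omega) t)
          rw [← b7, c4] at c5
          exact c5
      · refine le_trans (tsum_mono' (g' := fun _ => 0) fun M _ hb => ?_) (by simp [tsum])
        have : ¬ Z (M.erase 0 + Multiset.replicate (D - j + 1) t) := fun hz => ht (by
          have := hz.1
          rwa [b2 M hb] at this)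
        simp only [φz, if_neg this, ite_self, le_refl]
    refine (sum_le_sum b1).trans ?_
    rw [← sum_filter]
    exact sum_le_sum_of_subset fun t ht => (mem_filter.mp ht).2
  have e4 : ∑ t ∈ Lv, (D - a0 t) ≤ ∑ M ∈ symF B D, φz M := by
    have b1 : ∑ t ∈ Lv, (D - a0 t) = (Lv.sigma fun t => Ico (a0 t) D).card := by
      rw [card_sigma]
      simp
    have b2 : ((symF B D).filter fun M => φz M = 1).card ≤ ∑ M ∈ symF B D, φz M := by
      rw [card_filter]
      refine sum_le_sum fun M _ => ?_
      split_ifs with h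
      · exact h.ge
      · exact Nat.zero_le _
    rw [b1]
    refine le_trans (card_le_card_of_injOn (fun p => uu D p.2 p.1) ?_ ?_) b2
    · rintro ⟨t, a⟩ hp
      simp only [mem_coe, mem_sigma, mem_Ico] at hp
      obtain ⟨ht, p1, p2⟩ := hp
      have hm : ∀ x ∈ uu D a t, x = 0 ∨ x = t := fun x hx =>
        (Multiset.mem_add.mp hx).imp Multiset.eq_of_mem_replicate Multiset.eq_of_mem_replicate
      simp only [mem_coe, mem_filter, mem_symF]
      refine ⟨⟨card_uu p2.le t, fun x hx => ?_⟩, ?_⟩
      · have := (hL t ht).1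
        rcases hm x hx with h | h <;> omega
      · have hz : Z (uu D a t) := by
          simp only [Z, sup_uu p2]
          exact ⟨ht, hm⟩
        simp only [φz, if_pos hz]
        obtain ⟨c1, c2, c3, -⟩ := ha0 t ht
        refine le_antisymm (h1 _) ?_
        rw [← c3]
        exact hφ _ _ (by rw [card_uu p2.le, card_uu c2.le]) (dom_uu p1 p2.le t)
    · rintro ⟨t, a⟩ hp ⟨t', a'⟩ hp' h
      simp only [mem_coe, mem_sigma, mem_Ico] at hp hp'
      simp only at h
      have q1 : t = t' := by rw [← sup_uu hp.2.2 t, h, sup_uu hp'.2.2]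
      subst q1
      have q2 := congrArg (Multiset.count 0) h
      simp only [uu, Multiset.count_add, Multiset.count_replicate, if_neg (ht0 t hp.1),
        if_true] at q2
      have q3 : a = a' := by omega
      rw [q3]
  have e5 : ∑ j ∈ range (D + 1), Nat.stirlingFirst D j * EE B D φz j ≤
      ∑ t ∈ Lv, stc D (a0 t + 1) := by
    unfold stc
    rw [sum_comm]
    refine sum_le_sum fun j hj => ?_
    rw [← mul_sum]
    exact Nat.mul_le_mul_left _ (e3 j (Nat.lt_succ_iff.mp (mem_range.mp hj)))
  have e6 : ∑ t ∈ Lv, stc D (a0 t + 1) + D.factorial * Lv.card ≤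
      D.factorial * ∑ t ∈ Lv, (D - a0 t) + Lv.card := by
    rw [card_eq_sum_ones, mul_sum, mul_sum, ← sum_add_distrib, ← sum_add_distrib]
    refine sum_le_sum fun t ht => ?_
    obtain ⟨c1, c2, -, -⟩ := ha0 t ht
    have := stc_le D (a0 t + 1) (by omega) c2
    rw [show D - a0 t = D - (a0 t + 1) + 1 by omega, mul_add]
    omega
  have e7 : ∑ j ∈ range (D + 1), Nat.stirlingFirst D j * EE B D φo j ≤
      D.factorial * ∑ M ∈ symF B D, φo M :=
    (sum_le_sum fun j _ => Nat.mul_le_mul_left _ (e1 j)).trans e2
  have e8 := Nat.mul_le_mul_left D.factorial e4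
  have e9 : ∑ M ∈ symF B D, φ M = ∑ M ∈ symF B D, φo M + ∑ M ∈ symF B D, φz M := by
    rw [← sum_add_distrib]
    exact sum_congr rfl fun M _ => hsplit M
  simp only [hE, mul_add, sum_add_distrib, e9]
  omega

end Pool.Agent.P.MP_eae75b_ag
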