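import Pool.Agent.P.MP_eae75b_ag.Count
import Pool.Agent.P.MP_eae75b_ag.StB

/-! A sharper count of exponent vectors outside the powers of a stable family. -/

namespace Pool.Agent.P.MP_eae75b_ag

open Finset

theorem hermite (n : ℕ) (hn : 0 < n) (x : ℕ) : ∑ u ∈ range n, (x + u) / n = x := by
  induction x with
  | zero => exact sum_eq_zero fun u hu => Nat.div_eq_of_lt (by simpa using hu)
  | succ x ih =>
    have h1 := sum_range_succ (fun u => (x + u) / n) n
    have h2 := sum_range_succ' (fun u => (x + u) / n) n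
    have h3 : (x + n) / n = x / n + 1 := Nat.add_div_right x hn
    have h4 : ∑ u ∈ range n, (x + 1 + u) / n = ∑ u ∈ range n, (x + (u + 1)) / n :=
      sum_congr rfl fun u _ => by rw [add_assoc, add_comm 1 u]
    simp only [add_zero] at h2
    omega

theorem div_shift {n D c : ℕ} (hn : 0 < n) (hc : c ≤ D) (x : ℕ) : (x + c) / (n + D) ≤ x / n := by
  rw [Nat.le_div_iff_mul_le hn]
  set q := (x + c) / (n + D) with hq
  have e2 : (n + D) * q ≤ x + c := Nat.mul_div_le _ _
  rcases Nat.eq_zero_or_pos q with h | h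
  · simp [h]
  · have e3 : D ≤ D * q := Nat.le_mul_of_pos_right _ h
    have e4 : (n + D) * q = q * n + D * q := by ring
    omega

theorem suf_sum {D : ℕ} (n : ℕ) (g : ℕ → Fin D → ℕ) (x : ℕ) :
    suf (∑ u ∈ range n, g u) x = ∑ u ∈ range n, suf (g u) x := by
  induction n with
  | zero => simp [suf]
  | succ n ih => rw [sum_range_succ, sum_range_succ, suf_add, ih]

def ini {m : ℕ} (F : Fin (m + 1) → ℕ) : Multiset ℕ := mset fun s : Fin m => F s.castSucc

theorem mset_ini {m : ℕ} (F : Fin (m + 1) → ℕ) : mset F = F (Fin.last m) ::ₘ ini F := by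
  unfold ini mset
  rw [List.ofFn_succ_last, ← Multiset.coe_add, add_comm]
  rfl

theorem exists_top (i : ℕ) {m : ℕ} (F : Fin (m + 1) → ℕ) (hF : Antitone F)
    (h0 : F (Fin.last m) = 0) (t : ℕ) (ht : F 0 ≤ t) :
    ∃ ν : Fin (i + 1 + m) → ℕ, (∀ x ≤ i, suf ν x = t) ∧
      (∀ s : Fin (m + 1), suf ν (i + 1 + s.val) = F s) ∧
      msuf ν = ini F + Multiset.replicate (i + 1) t := by
  let z : ℕ → ℕ := fun x =>
    if x ≤ i then t else if h : x - (i + 1) < m + 1 then F ⟨x - (i + 1), h⟩ else 0
  have hz : Antitone z := by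
    intro a b hab
    simp only [z]
    split_ifs with h1 h2 h3 h4 h5 h6 h7
    · exact le_rfl
    · omega
    · omega
    · exact (hF (Fin.zero_le _)).trans ht
    · exact hF (by rw [Fin.le_def]; simp only; omega)
    · omega
    · exact Nat.zero_le _
    · exact Nat.zero_le _
    · exact le_rfl
  have hz0 : ∀ x, i + 1 + m ≤ x → z x = 0 := by
    intro x hx
    simp only [z]
    rw [if_neg (by omega)]
    split_ifs with h
    · rw [← h0]
      congr 1
      ext
      simp only [Fin.val_last]
      omega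
    · rfl
  have hs := suf_dif hz hz0
  have h1 : ∀ x ≤ i, suf (dif (i + 1 + m) z) x = t := fun x hx => by
    rw [hs]; exact if_pos hx
  have h2 : ∀ s : Fin (m + 1), suf (dif (i + 1 + m) z) (i + 1 + s.val) = F s := fun s => by
    have := s.isLt
    rw [hs]
    simp only [z]
    rw [if_neg (by omega), dif_pos (by omega)]
    congr 1
    ext
    simp only
    omega
  refine ⟨dif (i + 1 + m) z, h1, h2, ?_⟩
  unfold msuf ini mset
  rw [List.ofFn_add, ← Multiset.coe_add, add_comm]
  congr 1
  · congr 2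
    funext s
    exact h2 s.castSucc
  · rw [← Multiset.coe_replicate, ← List.ofFn_const]
    congr 2
    funext s
    exact h1 _ (Nat.lt_succ_iff.mp s.isLt)

theorem wt0_le_one {D : ℕ} (T : (Fin D → ℕ) → Prop) (M : Multiset ℕ) : wt0 T M ≤ 1 := by
  unfold wt0
  split_ifs <;> omega

theorem wt0_msuf {D : ℕ} {T : (Fin D → ℕ) → Prop} {ν : Fin D → ℕ} (h : ¬ T ν) :
    wt0 T (msuf ν) = 1 := if_pos ⟨ν, h, Dom.refl _⟩

theorem count_le2 {i m : ℕ} (Cl : ℕ → (Fin (i + 1 + m) → ℕ) → Prop) (n B : ℕ) (hn : 0 < n)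
    (hS : Stab (Cl n))
    (hsum : ∀ g : ℕ → Fin (i + 1 + m) → ℕ, (∀ u < n, Cl 1 (g u)) → Cl n (∑ u ∈ range n, g u))
    (hB : ∀ ν, ¬ Cl 1 ν → ∑ s, ν s < B) (S : Finset (Fin (i + 1 + m) → ℕ))
    (hS0 : ∀ ν ∈ S, ∀ s : Fin (i + 1 + m), s.val < i → ν s = 0) (hS1 : ∀ ν ∈ S, ¬ Cl n ν) :
    (m + 1).factorial * S.card ≤
      (n + (i + 1 + m)) ^ (m + 1) * EE B (i + 1 + m) (wt0 (Cl 1)) (m + 1) := by
  classical
  set N := n + (i + 1 + m) with hN
  have hNpos : 0 < N := by omega
  let y : (Fin (m + 1) → ℕ) → ℕ → Fin (m + 1) → ℕ := fun l u s => l s + u + (m - s.val)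
  let f : (Fin (m + 1) → ℕ) → ℕ → Fin (m + 1) → ℕ := fun l u s => y l u s / N
  let c : ℕ → (Fin (m + 1) → ℕ) → ℕ → Prop := fun t l u =>
    f l u 0 ≤ t ∧ wt0 (Cl 1) (ini (f l u) + Multiset.replicate (i + 1) t) = 1
  let g : (Fin (m + 1) → ℕ) → ℕ → ℕ := fun l u => ((range B).filter fun t => c t l u).card
  let lam : (Fin (i + 1 + m) → ℕ) → Fin (m + 1) → ℕ := fun ν s => suf ν (i + 1 + s.val)
  let L := S.image lam
  have hLa : ∀ l ∈ L, Antitone l ∧ l (Fin.last m) = 0 := by
    intro l hl
    obtain ⟨ν, -, rfl⟩ := mem_image.mp hl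
    refine ⟨fun a b hab => suf_anti ν (by have := Fin.le_def.mp hab; omega), ?_⟩
    exact suf_of_le _ (by simp)
  have hy : ∀ l ∈ L, ∀ u, StrictAnti (y l u) := by
    intro l hl u a b hab
    have h1 := (hLa l hl).1 hab.le
    have h2 := Fin.lt_def.mp hab
    have h3 := b.isLt
    simp only [y]
    omega
  have hfa : ∀ l ∈ L, ∀ u, Antitone (f l u) := fun l hl u a b hab =>
    Nat.div_le_div_right ((hy l hl u).antitone hab)
  have hf0 : ∀ l ∈ L, ∀ u < n, f l u (Fin.last m) = 0 := by
    intro l hl u hu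
    refine Nat.div_eq_of_lt ?_
    simp only [y, (hLa l hl).2, Fin.val_last]
    omega
  have hfs : ∀ l s, ∑ u ∈ range n, f l u s ≤ l s := by
    intro l s
    rw [← hermite n hn (l s)]
    exact sum_le_sum fun u _ => div_shift hn (by omega) _
  have hsuf : ∀ ν ∈ S, ∀ t, t ≤ i → suf ν t = suf ν i := by
    intro ν hν t ht
    unfold suf
    refine sum_congr rfl fun s _ => ?_
    by_cases hs : s.val < i
    · simp [hS0 ν hν s hs]
    · rw [if_pos (by omega), if_pos (by omega)]
  have key : ∀ ν ∈ S, suf ν i < ∑ u ∈ range n, (f (lam ν) u 0 + g (lam ν) u) := by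
    intro ν hν
    have hl : lam ν ∈ L := mem_image_of_mem _ hν
    by_contra hc
    have h1 : ∀ u, ∃ μ : Fin (i + 1 + m) → ℕ, u < n → Cl 1 μ ∧
        (∀ x ≤ i, suf μ x = f (lam ν) u 0 + g (lam ν) u) ∧
        ∀ s : Fin (m + 1), suf μ (i + 1 + s.val) = f (lam ν) u s := by
      intro u
      by_cases hu : u < n
      swap
      · exact ⟨0, fun h => absurd h hu⟩
      obtain ⟨μ, a1, a2, a3⟩ := exists_top i (f (lam ν) u) (hfa _ hl u) (hf0 _ hl u hu)
        (f (lam ν) u 0 + g (lam ν) u) (Nat.le_add_right _ _)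
      refine ⟨μ, fun _ => ⟨?_, a1, a2⟩⟩
      by_contra hμ
      have a4 := hB μ hμ
      rw [← suf_zero, a1 0 (Nat.zero_le _)] at a4
      have a5 := wt0_msuf hμ
      rw [a3] at a5
      have a6 : Icc (f (lam ν) u 0) (f (lam ν) u 0 + g (lam ν) u) ⊆
          (range B).filter fun t => c t (lam ν) u := by
        intro t ht
        rw [mem_Icc] at ht
        refine mem_filter.mpr ⟨mem_range.mpr (by omega), ht.1, le_antisymm (wt0_le_one _ _) ?_⟩
        exact a5.ge.trans (wt0_anti _ _ _ (by simp) ((Dom.refl _).add (Dom.replicate _ ht.2)))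
      have a7 : _ ≤ g (lam ν) u := card_le_card a6
      rw [Nat.card_Icc] at a7
      omega
    choose μ hμ using h1
    refine hS1 ν hν (hS.dom (hsum μ fun u hu => (hμ u hu).1) fun x => ?_)
    rw [suf_sum]
    by_cases hx : x ≤ i
    · rw [hsuf ν hν x hx, sum_congr rfl fun u hu => (hμ u (mem_range.mp hu)).2.1 x hx]
      omega
    · by_cases hx' : x - (i + 1) < m + 1
      · have e : x = i + 1 + (⟨x - (i + 1), hx'⟩ : Fin (m + 1)).val := by
          simp only
          omega
        rw [e, sum_congr rfl fun u hu => (hμ u (mem_range.mp hu)).2.2 _]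
        exact hfs (lam ν) _
      · rw [sum_eq_zero fun u _ => suf_of_le _ (by omega)]
        exact Nat.zero_le _
  have hlow : ∀ ν, ∑ u ∈ range n, f (lam ν) u 0 ≤ suf ν i := fun ν =>
    (hfs (lam ν) 0).trans (suf_anti ν (by simp))
  have e1 : S.card ≤ ∑ l ∈ L, ∑ u ∈ range n, g l u := by
    have : ∑ l ∈ L, ∑ u ∈ range n, g l u =
        (L.sigma fun l => range (∑ u ∈ range n, g l u)).card := by
      rw [card_sigma]
      simp
    rw [this]
    refine card_le_card_of_injOn
      (fun ν => ⟨lam ν, suf ν i - ∑ u ∈ range n, f (lam ν) u 0⟩) ?_ ?_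
    · intro ν hν
      have a1 := key ν hν
      have a2 := hlow ν
      rw [sum_add_distrib] at a1
      simp only [mem_coe, mem_sigma, mem_range]
      exact ⟨mem_image_of_mem _ hν, by omega⟩
    · intro ν hν ν' hν' h
      simp only [Sigma.mk.injEq, heq_eq_eq] at h
      obtain ⟨a1, a2⟩ := h
      have a3 := hlow ν
      have a4 := hlow ν'
      rw [a1] at a2 a3
      have a5 : suf ν i = suf ν' i := by omega
      refine suf_inj fun x => ?_
      by_cases hx : x ≤ i
      · rw [hsuf ν hν x hx, hsuf ν' hν' x hx, a5]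
      · by_cases hx' : x - (i + 1) < m + 1
        · have := congrFun a1 ⟨x - (i + 1), hx'⟩
          simp only [lam, show i + 1 + (x - (i + 1)) = x by omega] at this
          exact this
        · rw [suf_of_le _ (by omega), suf_of_le _ (by omega)]
  have e2 : ∑ l ∈ L, ∑ u ∈ range n, g l u =
      ∑ t ∈ range B, ((L ×ˢ range n).filter fun p => c t p.1 p.2).card := by
    rw [← sum_product']
    simp only [g, card_filter]
    exact sum_comm
  have e3 : ∀ t, (m + 1).factorial * ((L ×ˢ range n).filter fun p => c t p.1 p.2).card ≤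
      N ^ (m + 1) * ers t 0 (m + 1) fun M => wt0 (Cl 1) (M + Multiset.replicate (i + 1) t) := by
    intro t
    let F := (tup (t + 1) (m + 1)).filter fun q =>
      0 ∈ mset q ∧ wt0 (Cl 1) ((mset q).erase 0 + Multiset.replicate (i + 1) t) = 1
    have hF : F.card ≤
        ers t 0 (m + 1) fun M => wt0 (Cl 1) (M + Multiset.replicate (i + 1) t) := by
      unfold ers tsum
      rw [card_filter]
      refine sum_le_sum fun q _ => ?_
      beta_reduce
      split_ifs with h h'
      · exact h.2.ge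
      · exact absurd h.1 h'
      · exact Nat.zero_le _
      · exact le_rfl
    have hcard : ((univ : Finset (Equiv.Perm (Fin (m + 1)))) ×ˢ
        ((L ×ˢ range n).filter fun p => c t p.1 p.2)).card ≤ (F ×ˢ tup N (m + 1)).card := by
      refine card_le_card_of_injOn
        (fun p => (fun s => y p.2.1 p.2.2 (p.1 s) / N, fun s => y p.2.1 p.2.2 (p.1 s) % N)) ?_ ?_
      · rintro ⟨σ, l, u⟩ hp
        simp only [coe_product, Set.mem_prod, mem_coe, mem_filter, mem_product, mem_range] at hp
        obtain ⟨-, ⟨hl, hu⟩, c1, c2⟩ := hp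
        simp only [coe_product, Set.mem_prod, mem_coe]
        refine ⟨mem_filter.mpr ⟨?_, ?_⟩, ?_⟩
        · simp only [tup, Fintype.mem_piFinset, mem_range]
          exact fun s => Nat.lt_succ_of_le ((hfa l hl u (Fin.zero_le (σ s))).trans c1)
        · have b1 : mset (fun s => y l u (σ s) / N) = 0 ::ₘ ini (f l u) := by
            rw [← hf0 l hl u hu, ← mset_ini]
            exact mset_comp_perm (f l u) σ
          rw [b1, Multiset.erase_cons_head]
          exact ⟨Multiset.mem_cons_self _ _, c2⟩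
        · simp only [tup, Fintype.mem_piFinset, mem_range]
          exact fun s => Nat.mod_lt _ hNpos
      · rintro ⟨σ, l, u⟩ hp ⟨σ', l', u'⟩ hp' h
        simp only [coe_product, Set.mem_prod, mem_coe, mem_filter, mem_product, mem_range]
          at hp hp'
        have hl := hp.2.1.1
        have hl' := hp'.2.1.1
        simp only [Prod.mk.injEq] at h
        have b1 : y l u ∘ σ = y l' u' ∘ σ' := by
          funext s
          have a1 : y l u (σ s) / N = y l' u' (σ' s) / N := congrFun h.1 s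
          have a2 : y l u (σ s) % N = y l' u' (σ' s) % N := congrFun h.2 s
          simp only [Function.comp]
          rw [← Nat.div_add_mod (y l u (σ s)) N, ← Nat.div_add_mod (y l' u' (σ' s)) N, a1, a2]
        have b2 : y l u = y l' u' := by
          refine ((hy l hl u).range_inj (hy l' hl' u')).mp ?_
          rw [← σ.surjective.range_comp, ← σ'.surjective.range_comp (y l' u'), b1]
        have b3 : σ = σ' := by
          ext s
          have := congrFun b1 s
          simp only [Function.comp] at this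
          rw [← b2] at this
          rw [(hy l hl u).injective this]
        have b4 : u = u' := by
          have := congrFun b2 (Fin.last m)
          simp only [y, (hLa l hl).2, (hLa l' hl').2] at this
          omega
        have b5 : l = l' := by
          funext s
          have := congrFun b2 s
          simp only [y] at this
          omega
        rw [b3, b4, b5]
    rw [card_product, card_product, card_univ, Fintype.card_perm, Fintype.card_fin] at hcard
    have e5 : (tup N (m + 1)).card = N ^ (m + 1) := by simp [tup]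
    rw [e5] at hcard
    calc _ ≤ F.card * N ^ (m + 1) := hcard
      _ ≤ _ := by rw [mul_comm]; exact Nat.mul_le_mul_left _ hF
  refine (Nat.mul_le_mul_left _ (e1.trans e2.le)).trans ?_
  rw [EE, show i + 1 + m - (m + 1) + 1 = i + 1 by omega, mul_sum, mul_sum]
  exact sum_le_sum fun t _ => e3 t

theorem count_le3 {D i : ℕ} (hi : i < D) (Cl : ℕ → (Fin D → ℕ) → Prop) (n B : ℕ) (hn : 0 < n)
    (hS : Stab (Cl n))
    (hsum : ∀ g : ℕ → Fin D → ℕ, (∀ u < n, Cl 1 (g u)) → Cl n (∑ u ∈ range n, g u))
    (hB : ∀ ν, ¬ Cl 1 ν → ∑ s, ν s < B) (S : Finset (Fin D → ℕ))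
    (hS0 : ∀ ν ∈ S, ∀ s : Fin D, s.val < i → ν s = 0) (hS1 : ∀ ν ∈ S, ¬ Cl n ν) :
    (D - i).factorial * S.card ≤ (n + D) ^ (D - i) * EE B D (wt0 (Cl 1)) (D - i) := by
  obtain ⟨m, rfl⟩ : ∃ m, D = i + 1 + m := ⟨D - (i + 1), by omega⟩
  rw [show i + 1 + m - i = m + 1 by omega]
  exact count_le2 Cl n B hn hS hsum hB S hS0 hS1

end Pool.Agent.P.MP_eae75b_ag
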