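import Pool.Agent.P.MP_eae75b_ag.Main
import Pool.Agent.P.MP_eae75b_ag.StC

/-! The Stirling refinement of the Lech inequality with its remainder term. -/

namespace Pool.Agent.P.MP_eae75b_ag

open Finset Matrix Module

theorem Cl_add {D : ℕ} {J : (Fin D → ℕ) → Prop} {N a b : ℕ} {ν μ : Fin D → ℕ}
    (h : Cl J N a ν) (h' : Cl J N b μ) : Cl J N (a + b) (ν + μ) := by
  obtain ⟨M, hM, s, h1, h2, h3⟩ := h
  obtain ⟨M', hM', s', h4, h5, h6⟩ := h'
  refine ⟨M * M', by positivity, M' • s + M • s', fun g hg => ?_, ?_, ?_⟩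
  · rcases Multiset.mem_add.mp hg with hg | hg
    · exact h1 g (Multiset.mem_of_mem_nsmul hg)
    · exact h4 g (Multiset.mem_of_mem_nsmul hg)
  · simp only [Multiset.card_add, Multiset.card_nsmul, h2, h5]
    ring
  · rw [Multiset.sum_add, Multiset.sum_nsmul, Multiset.sum_nsmul, smul_add]
    refine add_le_add ?_ ?_
    · rw [mul_comm, mul_smul]
      exact nsmul_le_nsmul_right h3 M'
    · rw [mul_smul]
      exact nsmul_le_nsmul_right h6 M

theorem Cl_sum {D : ℕ} {J : (Fin D → ℕ) → Prop} (N n : ℕ) (g : ℕ → Fin D → ℕ)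
    (h : ∀ u < n, Cl J N 1 (g u)) : Cl J N n (∑ u ∈ range n, g u) := by
  induction n with
  | zero => exact ⟨1, one_pos, 0, by simp, by simp, by simp⟩
  | succ n ih =>
    rw [sum_range_succ]
    exact Cl_add (ih fun u hu => h u (by omega)) (h n (by omega))

theorem exists_weight2 (D N : ℕ) : ∃ ω : Fin D → ℕ, StrictAnti ω ∧
    (∀ ν κ : Fin D → ℕ, ∑ j, ν j < N → ∑ j, κ j < N → wt ω ν = wt ω κ → ν = κ) ∧
    ∀ ν κ : Fin D → ℕ, ∑ j, κ j < ∑ j, ν j → ∑ j, κ j < N → wt ω κ < wt ω ν := by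
  obtain ⟨ω, h1, h2⟩ := exists_weight D N
  set C := (∑ j, ω j) * N + 1 with hC
  have e : ∀ ν, wt (fun j => ω j + C) ν = wt ω ν + C * ∑ j, ν j := by
    intro ν
    simp only [wt, add_mul, sum_add_distrib, mul_sum]
  have h3 : ∀ ν κ : Fin D → ℕ, ∑ j, κ j < ∑ j, ν j → ∑ j, κ j < N →
      wt (fun j => ω j + C) κ < wt (fun j => ω j + C) ν := by
    intro ν κ a1 a2
    rw [e, e]
    have a3 := (wt_le ω κ).trans (Nat.mul_le_mul_left _ a2.le)
    have a4 : C * (∑ j, κ j + 1) ≤ C * ∑ j, ν j := Nat.mul_le_mul_left _ a1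
    rw [mul_add, mul_one] at a4
    omega
  refine ⟨fun j => ω j + C, fun a b hab => Nat.add_lt_add_right (h1 hab) _, ?_, h3⟩
  intro ν κ a1 a2 h
  have a3 : ∑ j, ν j = ∑ j, κ j := by
    rcases lt_trichotomy (∑ j, ν j) (∑ j, κ j) with h' | h' | h'
    · exact absurd (h3 κ ν h' a1) (by omega)
    · exact h'
    · exact absurd (h3 ν κ h' a2) (by omega)
  rw [e, e, a3] at h
  exact h2 ν κ a1 a2 (by omega)

section

variable {k R : Type} [Field k] [CommRing R] [Algebra k R] {d N : ℕ} {y : Fin (d + 1) → R}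
  {ω : Fin (d + 1) → ℕ} {I : Ideal R}

theorem red_low (hk : ∀ f : R, ∃ a : k, f - algebraMap k R a ∈ Ideal.span (Set.range y))
    (hN : Ideal.span (Set.range y) ^ N ≤ I)
    (hω : ∀ ν κ : Fin (d + 1) → ℕ, ∑ j, ν j < N → ∑ j, κ j < N → wt ω ν = wt ω κ → ν = κ)
    (hdeg : ∀ ν κ : Fin (d + 1) → ℕ, ∑ j, κ j < ∑ j, ν j → ∑ j, κ j < N → wt ω κ < wt ω ν)
    {a : ℕ} (ha : ¬ I ≤ Ideal.span (Set.range y) ^ (a + 1)) :
    ∃ ν : Fin (d + 1) → ℕ, ∑ j, ν j ≤ a ∧ Red k y ω I ν := by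
  classical
  by_cases haN : N ≤ a
  · exact ⟨Pi.single 0 N, by simpa using haN, Red.of_mem (hN (mon_mem_pow y _ (by simp)))⟩
  obtain ⟨f, hf, hf'⟩ := SetLike.not_le_iff_exists.mp ha
  obtain ⟨p, h1, h2⟩ := approx hk N f
  have h3 : p ∈ I := by
    have := I.sub_mem hf (hN h2)
    rwa [sub_sub_cancel] at this
  have h4 : p ∉ Ideal.span (Set.range y) ^ (a + 1) := fun h => hf' (by
    have := Ideal.add_mem _ (Ideal.pow_le_pow_right (show a + 1 ≤ N by omega) h2) h
    rwa [sub_add_cancel] at this)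
  obtain ⟨c, rfl⟩ := Finsupp.mem_span_range_iff_exists_finsupp.mp h1
  obtain ⟨ν1, a1, a2⟩ : ∃ ν ∈ c.support, ∑ j, ν j ≤ a := by
    by_contra hc
    push Not at hc
    exact h4 (Ideal.sum_mem _ fun ν hν =>
      Submodule.smul_of_tower_mem _ _ (mon_mem_pow y ν (hc ν hν)))
  obtain ⟨ν, b1, b2⟩ := exists_min_image c.support (wt ω) ⟨ν1, a1⟩
  have b3 : ∑ j, ν j ≤ a := by
    by_contra hc
    have := hdeg ν ν1 (by omega) (by omega)
    have := b2 ν1 a1
    omega
  have b4 : c ν ≠ 0 := Finsupp.mem_support_iff.mp b1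
  refine ⟨ν, b3, _, Submodule.smul_of_tower_mem _ (c ν)⁻¹ h3, ?_⟩
  rw [Finsupp.sum, ← add_sum_erase _ _ b1, smul_add, smul_smul, inv_mul_cancel₀ b4, one_smul,
    sub_add_cancel_left]
  refine neg_mem (Submodule.smul_mem _ _ (Submodule.sum_mem _ fun κ hκ =>
    Submodule.smul_mem _ _ (Submodule.subset_span ⟨κ, ?_, rfl⟩)))
  obtain ⟨c1, c2⟩ := mem_erase.mp hκ
  refine lt_of_le_of_ne (b2 κ c2) fun h => ?_
  by_cases c3 : ∑ j, κ j < N
  · exact c1 (hω ν κ (by omega) c3 h).symm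
  · have := hdeg κ ν (by omega) (by omega)
    omega

omit [Field k] [Algebra k R] in
theorem pow_le_of_mon (b : ℕ) : Ideal.span (Set.range y) ^ b ≤
    Ideal.span {r | ∃ ν : Fin (d + 1) → ℕ, b ≤ ∑ j, ν j ∧ r = mon y ν} := by
  induction b with
  | zero =>
    rw [pow_zero, Ideal.one_eq_top, top_le_iff, Ideal.eq_top_iff_one]
    exact Ideal.subset_span ⟨0, by simp, (mon_zero y).symm⟩
  | succ b ih =>
    rw [pow_succ]
    refine (Ideal.mul_mono_left ih).trans ?_
    rw [Ideal.span_mul_span']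
    refine Ideal.span_mono ?_
    rintro _ ⟨_, ⟨ν, h1, rfl⟩, _, ⟨t, rfl⟩, rfl⟩
    refine ⟨ν + Pi.single t 1, ?_, by rw [mon_add, mon_single, pow_one]⟩
    simp only [Pi.add_apply, sum_add_distrib, sum_pi_single', mem_univ, if_true]
    omega

theorem red_high (hN : Ideal.span (Set.range y) ^ N ≤ I)
    (hdeg : ∀ ν κ : Fin (d + 1) → ℕ, ∑ j, κ j < ∑ j, ν j → ∑ j, κ j < N → wt ω κ < wt ω ν)
    {b : ℕ} (hb : ¬ Ideal.span (Set.range y) ^ b ≤ I) :
    ∃ ν : Fin (d + 1) → ℕ, b ≤ ∑ j, ν j ∧ ¬ Red k y ω I ν := by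
  by_contra hc
  push Not at hc
  have key : ∀ m ν, (∑ j, ω j) * N < wt ω ν + m → b ≤ ∑ j, ν j → mon y ν ∈ I := by
    intro m
    induction m with
    | zero =>
      intro ν hν _
      have h1 := wt_le ω ν
      refine hN (mon_mem_pow y ν ?_)
      by_contra h
      have := Nat.mul_le_mul_left (∑ j, ω j) (not_le.mp h).le
      omega
    | succ m ih =>
      intro ν hν hb
      by_cases h0 : N ≤ ∑ j, ν j
      · exact hN (mon_mem_pow y ν h0)
      obtain ⟨f, hf, h1⟩ := hc ν hb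
      have h2 : Hi k y ω (wt ω ν) ≤ I.restrictScalars k := by
        rw [Hi, Submodule.span_le]
        rintro _ ⟨κ, hκ, rfl⟩
        refine ih κ (by omega) ?_
        by_contra h
        have := hdeg ν κ (by omega) (by omega)
        omega
      have := I.add_mem (h2 h1) hf
      rwa [sub_add_cancel] at this
  refine hb ((pow_le_of_mon b).trans (Ideal.span_le.mpr ?_))
  rintro _ ⟨ν, h1, rfl⟩
  exact key ((∑ j, ω j) * N + 1) ν (by omega) h1

end

theorem suf_top {d : ℕ} (t x : ℕ) :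
    suf (Pi.single 0 t : Fin (d + 1) → ℕ) x = if x = 0 then t else 0 := by
  have : (Pi.single 0 t : Fin (d + 1) → ℕ) = t • (Pi.single 0 1 : Fin (d + 1) → ℕ) := by
    rw [← Pi.single_smul, smul_eq_mul, mul_one]
  rw [this, suf_smul, suf_single]
  simp

theorem gain {d : ℕ} {T : (Fin (d + 1) → ℕ) → Prop} (hT : Stab T) (L : Finset (Fin (d + 1) → ℕ))
    (hL : ∀ ν, ¬ T ν → ν ∈ L) (B : ℕ) {ν1 : Fin (d + 1) → ℕ} (h1 : T ν1) {a b : ℕ}
    (ha : ∑ j, ν1 j ≤ a) (hb : b < B) (hg : ∀ t ≤ b, ∃ g ∈ L, ∑ j, g j = t) :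
    ∑ j ∈ range (d + 1 + 1), Nat.stirlingFirst (d + 1) j * EE B (d + 1) (wt0 T) j +
      (d + 1).factorial * (b + 1 - a) ≤ (d + 1).factorial * L.card + (b + 1 - a) := by
  classical
  have e1 := level B (d + 1) (wt0 T) (wt0_anti T) (wt0_le_one T) (Nat.succ_pos d)
    ((Icc a b).filter fun t => ¬ T (Pi.single 0 t)) (fun t ht => by
      obtain ⟨q1, q2⟩ := mem_filter.mp ht
      rw [mem_Icc] at q1
      refine ⟨by omega, if_neg ?_, ?_⟩
      · rintro ⟨ν, q3, q4⟩
        refine q3 (hT.dom h1 fun x => ?_)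
        by_cases hx : x < d + 1
        · have q5 : uu (d + 1) 0 t = mset fun _ : Fin (d + 1) => t := by
            rw [mset, List.ofFn_const, Multiset.coe_replicate]
            simp [uu]
          rw [q5] at q4
          have q6 : t ≤ suf ν x :=
            le_of_dom antitone_const (fun a b hab => suf_anti ν hab) q4 ⟨x, hx⟩
          have q7 := suf_anti ν1 (Nat.zero_le x)
          rw [suf_zero] at q7
          omega
        · rw [suf_of_le _ (by omega)]
          exact Nat.zero_le _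
      · have q5 : uu (d + 1) (d + 1 - 1) t = msuf (Pi.single 0 t : Fin (d + 1) → ℕ) := by
          rw [msuf, mset, List.ofFn_succ]
          simp only [uu, suf_top, Fin.val_zero, Fin.val_succ, if_true, Nat.add_one_ne_zero, if_false,
            List.ofFn_const, Nat.add_sub_cancel, Nat.add_sub_cancel_left, ← Multiset.cons_coe,
            Multiset.coe_replicate, Multiset.replicate_one]
          rw [add_comm, Multiset.singleton_add]
        rw [q5]
        exact wt0_msuf q2)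
  have e2 := sum_wt0_le hT (L.filter fun ν => ¬ T ν)
    (fun ν hν => mem_filter.mpr ⟨hL ν hν, hν⟩) B
  have e3 : ((Icc a b).filter fun t => T (Pi.single 0 t)).card ≤ (L.filter T).card := by
    refine le_trans (card_le_card ?_) (card_image_le (f := fun g => ∑ j, g j))
    intro t ht
    obtain ⟨q1, q2⟩ := mem_filter.mp ht
    obtain ⟨g, q3, q4⟩ := hg t (mem_Icc.mp q1).2
    refine mem_image.mpr ⟨g, mem_filter.mpr ⟨q3, hT.dom q2 fun x => ?_⟩, q4⟩
    rw [suf_top]
    split_ifs with hx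
    · rw [hx, suf_zero, q4]
    · exact Nat.zero_le _
  have e4 := card_filter_add_card_filter_not (s := L) T
  have e5 := card_filter_add_card_filter_not (s := Icc a b) fun t => T (Pi.single 0 t)
  rw [Nat.card_Icc] at e5
  have e6 := Nat.mul_le_mul_left (d + 1).factorial e2
  have e7 := Nat.mul_le_mul_left (d + 1).factorial e3
  rw [← e5, ← e4, mul_add, mul_add]
  omega

theorem abstract_main2 {k R : Type} [Field k] [Infinite k] [CommRing R] [Algebra k R] {d : ℕ}
    (x : Fin (d + 1) → R)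
    (hk : ∀ f : R, ∃ a : k, f - algebraMap k R a ∈ Ideal.span (Set.range x))
    (I : Ideal R) (N : ℕ) (hN : Ideal.span (Set.range x) ^ N ≤ I) (a b' : ℕ)
    (ha : ¬ I ≤ Ideal.span (Set.range x) ^ (a + 1)) (hb' : ¬ Ideal.span (Set.range x) ^ b' ≤ I) :
    Module.Finite k (R ⧸ I) ∧ ∃ P : MvPolynomial (Fin d × Fin (d + 1)) k, P ≠ 0 ∧
      ∃ (E : ℕ → ℕ) (K : ℕ),
        ∑ j ∈ range (d + 1 + 1), Nat.stirlingFirst (d + 1) j * E j +
          (d + 1).factorial * (b' + 1 - a) ≤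
            (d + 1).factorial * finrank k (R ⧸ I) + (b' + 1 - a) ∧
        ∀ c : Fin d → Fin (d + 1) → k, MvPolynomial.eval (fun p => c p.1 p.2) P ≠ 0 →
          ∀ i ≤ d, ∀ (n : ℕ) (K' : Ideal R), I ^ n ≤ K' →
            (∀ j : Fin d, j.val < i → ∑ t, c j t • x t ∈ K') →
            Module.Finite k (R ⧸ K') ∧
              (d + 1 - i).factorial * finrank k (R ⧸ K') ≤ (n + K) ^ (d + 1 - i) * E (d + 1 - i) := by
  classical
  obtain ⟨ω, hω', hω, hdeg⟩ := exists_weight2 (d + 1) N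
  have hsmall : ∀ (y : Fin (d + 1) → R) (K : Ideal R) (M : ℕ), Ideal.span (Set.range y) ^ M ≤ K →
      ∀ ν, ¬ Red k y ω K ν → ν ∈ tup M (d + 1) := by
    intro y K M hM ν hν
    simp only [tup, Fintype.mem_piFinset, mem_range]
    intro t
    by_contra hc
    have := single_le_sum (f := ν) (fun _ _ => Nat.zero_le _) (mem_univ t)
    exact hν (Red.of_mem (hM (mon_mem_pow y ν (by omega))))
  have hfin : Module.Finite k (R ⧸ I) :=
    (finrank_le_card (ω := ω) (i := 0) hk hN le_rfl (fun s hs => absurd hs (by omega))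
      (tup N (d + 1)) fun ν _ hν => hsmall x I N hN ν hν).1
  refine ⟨hfin, ?_⟩
  obtain ⟨ι, Λ0, -, hsp, hli⟩ := exists_linearIndependent' k (vec I x)
  have htop : Submodule.span k (Set.range (vec I x)) = ⊤ :=
    span_quot_eq_top hk hN _ fun ν => Submodule.subset_span ⟨ν, rfl⟩
  let b : Basis ι k (R ⧸ I) := Basis.mk hli (by rw [hsp, htop])
  have : Finite ι := Module.Finite.finite_basis b
  let _ : Fintype ι := Fintype.ofFinite ι
  have hg0 : Good x I b 1 Λ0 := by
    refine ⟨by simp, ?_⟩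
    have : (fun p => vec I (lin x (1 : Matrix _ _ k)) (Λ0 p)) = b := by
      funext p
      simp [b, lin_one]
    rw [this, Basis.det_self]
    exact one_ne_zero
  obtain ⟨c0, Λ, hg, hb⟩ := exists_best hN ω ⟨_, _, hg0⟩
  let ce : Matrix (Fin (d + 1)) (Fin (d + 1)) (MvPolynomial (Fin d × Fin (d + 1)) k) :=
    Matrix.of fun j t =>
      if h : j.val < d then MvPolynomial.X (⟨j.val, h⟩, t) else MvPolynomial.C (c0 j t)
  obtain ⟨P, hP⟩ := exists_poly (x := x) (I := I) (b := b) ce Λ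
  let J : (Fin (d + 1) → ℕ) → Prop := fun ν => ν ∉ Set.range Λ
  have hJN : ∀ ν, N ≤ ∑ t, ν t → J ν := by
    rintro ν hν ⟨p, rfl⟩
    have := hg.deg hN p
    omega
  have hJm : ∀ a a' ν, a < a' → J ν → J (fm a a' ν) :=
    fun a a' ν haa hν => hb.stable hN hω hω' hg haa hν
  have hL : ∀ ν, ¬ Cl J N 1 ν → ν ∈ Set.range Λ := by
    intro ν hν
    by_contra hc
    exact hν (Cl_one hJN ν hc)
  refine ⟨P, ?_, EE N (d + 1) (wt0 (Cl J N 1)),
    (N + 1) ^ (d + 1) + (d + 1), ?_, ?_⟩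
  · intro h0
    have : ce.map (MvPolynomial.eval fun p : Fin d × Fin (d + 1) => c0 p.1.castSucc p.2) = c0 := by
      ext j t
      simp only [ce, map_apply, of_apply]
      split_ifs with h
      · simp
      · simp
    have h1 := (hP fun p => c0 p.1.castSucc p.2).mpr (by rw [this]; exact hg)
    rw [h0] at h1
    simp at h1
  · have hJ : ∀ ν, Red k (lin x c0) ω I ν ↔ J ν := hb.red_iff hN hω hg
    have hsp := span_lin x hg.1
    obtain ⟨ν1, p1, p2⟩ := red_low (k := k) (I := I) (a := a) (y := lin x c0) (by rw [hsp]; exact hk)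
      (by rw [hsp]; exact hN) hω hdeg (by rw [hsp]; exact ha)
    obtain ⟨ν2, p3, p4⟩ := red_high (k := k) (I := I) (b := b') (y := lin x c0)
      (by rw [hsp]; exact hN) hdeg (by rw [hsp]; exact hb')
    have h1 := gain (Cl_stab hJm N 1) (univ.image Λ) (fun ν hν => by
        obtain ⟨p, rfl⟩ := hL ν hν
        exact mem_image_of_mem _ (mem_univ p)) N
      (Cl_one hJN ν1 ((hJ _).mp p2)) p1 (b := b') (by
        by_contra hc
        exact p4 ((hJ _).mpr (hJN _ (by omega))))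
      (fun t ht => by
        obtain ⟨g, q1, q2⟩ := exists_le_sum_eq t ν2 (ht.trans p3)
        refine ⟨g, ?_, q2⟩
        by_contra hc
        refine p4 (((hJ g).mpr ?_).up q1)
        rintro ⟨p, rfl⟩
        exact hc (mem_image_of_mem _ (mem_univ p)))
    refine h1.trans (Nat.add_le_add_right (Nat.mul_le_mul_left _ ?_) _)
    rw [finrank_eq_card_basis b]
    exact card_image_le
  · intro c hc i hi n K' hK hy
    have hgc := (hP _).mp hc
    set c1 := ce.map (MvPolynomial.eval fun p : Fin d × Fin (d + 1) => c p.1 p.2) with hc1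
    have hJ : Red k (lin x c1) ω I = J := by
      funext ν
      exact propext (hb.red_iff hN hω hgc ν)
    have hsp := span_lin x hgc.1
    have hM : Ideal.span (Set.range (lin x c1)) ^ (N * n) ≤ I ^ n := by
      rw [hsp, pow_mul]
      exact Ideal.pow_right_mono hN n
    let S := (tup (N * n) (d + 1)).filter fun ν =>
      (∀ s : Fin (d + 1), s.val < i → ν s = 0) ∧ ¬ Red k (lin x c1) ω (I ^ n) ν
    obtain ⟨h1, h2⟩ := finrank_le_card (ω := ω) (i := i) (y := lin x c1) (by rw [hsp]; exact hk)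
      hM hK (fun s hs => by
        have h3 := hy ⟨s.val, by omega⟩ hs
        have h4 : s.val < d := by omega
        have : lin x c1 s = ∑ t, c ⟨s.val, h4⟩ t • x t := by
          simp [lin, hc1, ce, h4]
        rw [this]; exact h3) S
      (fun ν h0 hν => mem_filter.mpr ⟨hsmall _ _ _ hM ν hν, h0, hν⟩)
    refine ⟨h1, (Nat.mul_le_mul_left _ h2).trans ?_⟩
    rw [← add_assoc]
    refine count_le3 (i := i) (by omega) (Cl J N) (n + (N + 1) ^ (d + 1)) N (by positivity)
      (Cl_stab hJm N _) (Cl_sum N _) (fun ν hν => ?_) S (fun ν hν => (mem_filter.mp hν).2.1)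
      (fun ν hν h => (mem_filter.mp hν).2.2 (Red.of_Cl (by rw [hJ]; exact h)))
    obtain ⟨p, rfl⟩ := hL ν hν
    exact hg.deg hN p

theorem main2 (k : Type) [Field k] [Infinite k] (d : ℕ)
    (I : Ideal (MvPowerSeries (Fin (d+1)) k))
    (hI : I.radical =
      Ideal.span (Set.range (MvPowerSeries.X : Fin (d+1) → MvPowerSeries (Fin (d+1)) k)))
    (o v : ℕ)
    (ho : IsGreatest {n : ℕ | I ≤ Ideal.span
      (Set.range (MvPowerSeries.X : Fin (d+1) → MvPowerSeries (Fin (d+1)) k)) ^ n} o)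
    (hv : IsLeast {n : ℕ | Ideal.span
      (Set.range (MvPowerSeries.X : Fin (d+1) → MvPowerSeries (Fin (d+1)) k)) ^ n ≤ I} v) :
    ∃ P : MvPolynomial (Fin d × Fin (d+1)) k, P ≠ 0 ∧
      ∀ c : Fin d → Fin (d+1) → k, MvPolynomial.eval (fun p => c p.1 p.2) P ≠ 0 →
        ∀ e : Fin (d+1) → ℝ,
          (∀ i : Fin (d+1), Filter.Tendsto
            (fun n : ℕ => ((Nat.factorial (d+1-i.val) : ℝ) *
              ((Module.length (MvPowerSeries (Fin (d+1)) k)
                (MvPowerSeries (Fin (d+1)) k ⧸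
                  (I ^ n ⊔ Ideal.span {f : MvPowerSeries (Fin (d+1)) k |
                    ∃ j : Fin d, j.val < i.val ∧
                      f = ∑ t : Fin (d+1), c j t • (MvPowerSeries.X t : MvPowerSeries (Fin (d+1)) k)}))).toNat : ℝ))
              / (n : ℝ) ^ (d+1-i.val))
            Filter.atTop (nhds (e i))) →
          ∑ i : Fin (d+1), ((ascPochhammer ℕ (d+1)).coeff (d+1-i.val) : ℝ) * e i
            + ((Nat.factorial (d+1) : ℝ) - 1) * ((v : ℝ) - o)
            ≤ (Nat.factorial (d+1) : ℝ) *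
              ((Module.length (MvPowerSeries (Fin (d+1)) k)
                (MvPowerSeries (Fin (d+1)) k ⧸ I)).toNat : ℝ) := by
  have hv0 : v ≠ 0 := by
    rintro rfl
    have h1 := ho.2 (show _ ∈ {n : ℕ | I ≤ _ ^ n} from (?_ : I ≤ _ ^ (o + 1)))
    · omega
    · have h2 : I = ⊤ := top_le_iff.mp (by simpa using hv.1)
      rw [← hI, h2, Ideal.radical_top, Ideal.top_pow]
  obtain ⟨b, rfl⟩ : ∃ b, v = b + 1 := ⟨v - 1, by omega⟩
  obtain ⟨hfin, P, hP, E, K, h1, h2⟩ := abstract_main2 (k := k) _ sub_const_mem I _ hv.1 o b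
    (fun h => absurd (ho.2 h) (by omega)) (fun h => absurd (hv.2 h) (by omega))
  refine ⟨P, hP, fun c hc e he => ?_⟩
  have h3 : ∀ i : Fin (d+1), e i ≤ E (d + 1 - i.val) := by
    intro i
    refine le_of_growth (K := K) (fun n => ?_) (he i)
    have hi := i.isLt
    obtain ⟨h4, h5⟩ := h2 c hc i.val (by omega) n
      (I ^ n ⊔ Ideal.span {f : MvPowerSeries (Fin (d+1)) k | ∃ j : Fin d, j.val < i.val ∧
        f = ∑ t : Fin (d+1), c j t • (MvPowerSeries.X t : MvPowerSeries (Fin (d+1)) k)}) le_sup_left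
      (fun j hj => Ideal.mem_sup_right (Ideal.subset_span ⟨j, hj, rfl⟩))
    rw [length_eq _ h4]
    exact_mod_cast h5
  rw [length_eq _ hfin]
  have h6 : ∑ i : Fin (d+1), Nat.stirlingFirst (d + 1) (d + 1 - i.val) * E (d + 1 - i.val) ≤
      ∑ j ∈ range (d + 1 + 1), Nat.stirlingFirst (d + 1) j * E j := by
    rw [← sum_range_reflect _ (d + 1 + 1),
      Fin.sum_univ_eq_sum_range (fun i => Nat.stirlingFirst (d + 1) (d + 1 - i) * E (d + 1 - i)) (d + 1)]
    exact sum_le_sum_of_subset (range_subset_range.mpr (by omega))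
  have h7 : ∑ i : Fin (d+1), ((ascPochhammer ℕ (d+1)).coeff (d+1-i.val) : ℝ) * e i ≤
      ∑ i : Fin (d+1), (Nat.stirlingFirst (d + 1) (d + 1 - i.val) : ℝ) * E (d + 1 - i.val) := by
    refine sum_le_sum fun i _ => ?_
    rw [coeff_ascPochhammer]
    exact mul_le_mul_of_nonneg_left (h3 i) (Nat.cast_nonneg _)
  have h8 : ∑ i : Fin (d+1), (Nat.stirlingFirst (d + 1) (d + 1 - i.val) : ℝ) * E (d + 1 - i.val) +
      ((d + 1).factorial : ℝ) * ((b + 1 - o : ℕ) : ℝ) ≤
      ((d + 1).factorial : ℝ) * (finrank k (MvPowerSeries (Fin (d+1)) k ⧸ I) : ℝ) +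
        ((b + 1 - o : ℕ) : ℝ) := by
    exact_mod_cast (Nat.add_le_add_right h6 _).trans h1
  have h9 : ((b + 1 : ℕ) : ℝ) - o ≤ ((b + 1 - o : ℕ) : ℝ) := by
    rw [sub_le_iff_le_add]
    exact_mod_cast (by omega : b + 1 ≤ b + 1 - o + o)
  have h10 : (1 : ℝ) ≤ ((d + 1).factorial : ℝ) := by exact_mod_cast Nat.factorial_pos (d + 1)
  nlinarith [mul_le_mul_of_nonneg_left h9 (sub_nonneg.mpr h10)]

theorem exists_ord (k : Type) [Field k] (d : ℕ) (I : Ideal (MvPowerSeries (Fin (d+1)) k))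
    (hI : I.radical =
      Ideal.span (Set.range (MvPowerSeries.X : Fin (d+1) → MvPowerSeries (Fin (d+1)) k))) :
    ∃ o v : ℕ, IsGreatest {n : ℕ | I ≤ Ideal.span
        (Set.range (MvPowerSeries.X : Fin (d+1) → MvPowerSeries (Fin (d+1)) k)) ^ n} o ∧
      IsLeast {n : ℕ | Ideal.span
        (Set.range (MvPowerSeries.X : Fin (d+1) → MvPowerSeries (Fin (d+1)) k)) ^ n ≤ I} v ∧
      o ≤ v := by
  set m := Ideal.span (Set.range (MvPowerSeries.X : Fin (d+1) → MvPowerSeries (Fin (d+1)) k))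
    with hm
  have hfg : m.FG := Submodule.fg_span (Set.finite_range _)
  have hj : m ≤ Ideal.jacobson ⊥ := by
    rw [IsLocalRing.jacobson_eq_maximalIdeal _ bot_ne_top, hm, Ideal.span_le]
    rintro _ ⟨t, rfl⟩
    rw [SetLike.mem_coe, IsLocalRing.mem_maximalIdeal, mem_nonunits_iff,
      MvPowerSeries.isUnit_iff_constantCoeff]
    simp
  have h1 : ∀ n n', m ^ n ≤ I → I ≤ m ^ n' → n' ≤ n := by
    intro n n' a1 a2
    by_contra hc
    have a3 : m ^ n ≤ m • m ^ n := by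
      rw [smul_eq_mul, ← pow_succ']
      exact (a1.trans a2).trans (Ideal.pow_le_pow_right (by omega))
    have a4 := Submodule.eq_bot_of_le_smul_of_le_jacobson_bot m _ hfg.pow a3 hj
    have a5 : (MvPowerSeries.X 0 : MvPowerSeries (Fin (d+1)) k) ^ n ∈ m ^ n :=
      Ideal.pow_mem_pow (Ideal.subset_span (Set.mem_range_self _)) n
    rw [a4, Ideal.mem_bot, MvPowerSeries.X_pow_eq] at a5
    have a6 := congrArg (MvPowerSeries.coeff (Finsupp.single 0 n)) a5
    simp at a6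
  obtain ⟨N, hN⟩ := Ideal.exists_radical_pow_le_of_fg I (by rw [hI]; exact hfg)
  rw [hI] at hN
  have hb : BddAbove {n : ℕ | I ≤ m ^ n} := ⟨N, fun n hn => h1 N n hN hn⟩
  have h2 := Nat.sSup_mem (s := {n : ℕ | I ≤ m ^ n}) ⟨0, by simp⟩ hb
  have h3 := Nat.sInf_mem (s := {n : ℕ | m ^ n ≤ I}) ⟨N, hN⟩
  exact ⟨_, _, ⟨h2, fun n hn => le_csSup hb hn⟩, ⟨h3, fun n hn => Nat.sInf_le hn⟩, h1 _ _ h3 h2⟩

end Pool.Agent.P.MP_eae75b_ag
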